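import Mathlib

/-!
# A coarser first-countable group topology on a countable Hausdorff group
-/

set_option autoImplicit false

namespace Pool.Agent.TH572.FU

open Filter Topology Set Pointwise

section

variable {G : Type} [Group G]

theorem coarse_step [τ : TopologicalSpace G] [IsTopologicalGroup G] [T2Space G] (e : ℕ → G)
    (k : ℕ) (U : Set G) (hU : U ∈ 𝓝 (1 : G)) :
    ∃ W ∈ 𝓝 (1 : G), W * W ⊆ U ∧ W ⊆ U⁻¹ ∧ (∀ i ≤ k, ∀ x ∈ W, e i * x * (e i)⁻¹ ∈ U) ∧
      (e k ≠ 1 → e k ∉ W) := by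
  obtain ⟨A, hA, hAU⟩ := exists_nhds_one_split hU
  have h1 : U⁻¹ ∈ 𝓝 (1 : G) := inv_mem_nhds_one G hU
  have h2 : ∀ i, {x : G | e i * x * (e i)⁻¹ ∈ U} ∈ 𝓝 (1 : G) := by
    intro i
    have h3 : Tendsto (fun x : G => e i * x * (e i)⁻¹) (𝓝 1) (𝓝 1) := by
      have h4 : Continuous fun x : G => e i * x * (e i)⁻¹ := by fun_prop
      have h5 := h4.tendsto 1
      simpa using h5
    exact h3 hU
  have h3 : {x : G | ∀ i ≤ k, e i * x * (e i)⁻¹ ∈ U} ∈ 𝓝 (1 : G) := by
    have h4 := (Filter.eventually_all_finset (Finset.range (k + 1))).2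
      (fun i (_ : i ∈ Finset.range (k + 1)) => h2 i)
    filter_upwards [h4] with x hx i hi using hx i (Finset.mem_range.2 (by omega))
  have h4 : {x : G | e k ≠ 1 → x ≠ e k} ∈ 𝓝 (1 : G) := by
    by_cases hk : e k = 1
    · exact univ_mem' fun x h => absurd hk h
    · have h5 : {e k}ᶜ ∈ 𝓝 (1 : G) := isOpen_compl_singleton.mem_nhds (Ne.symm hk)
      filter_upwards [h5] with x hx _ using hx
  refine ⟨A ∩ (U⁻¹ ∩ ({x : G | ∀ i ≤ k, e i * x * (e i)⁻¹ ∈ U} ∩ {x : G | e k ≠ 1 → x ≠ e k})),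
    inter_mem hA (inter_mem h1 (inter_mem h3 h4)), ?_, ?_, ?_, ?_⟩
  · rintro _ ⟨x, hx, y, hy, rfl⟩
    exact hAU x hx.1 y hy.1
  · exact fun x hx => hx.2.1
  · exact fun i hi x hx => hx.2.2.1 i hi
  · exact fun hk hx => hx.2.2.2 hk rfl

theorem exists_coarse [Countable G] [τ : TopologicalSpace G] [IsTopologicalGroup G] [T2Space G] :
    ∃ (V : ℕ → Set G) (μ : TopologicalSpace G), @IsTopologicalGroup G μ _ ∧ @T2Space G μ ∧ τ ≤ μ ∧
      Antitone V ∧ (@nhds G μ 1).HasBasis (fun _ => True) V := by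
  classical
  obtain ⟨e, he⟩ := exists_surjective_nat G
  choose f hf1 hf2 hf3 hf4 hf5 using coarse_step (G := G) e
  let W : ℕ → {U : Set G // U ∈ 𝓝 (1 : G)} := fun n =>
    Nat.rec ⟨univ, univ_mem⟩ (fun k U => ⟨f k U.1 U.2, hf1 k U.1 U.2⟩) n
  have hW : ∀ k, (W (k + 1)).1 = f k (W k).1 (W k).2 := fun k => rfl
  let V : ℕ → Set G := fun n => (W n).1
  have hVn : ∀ n, V n ∈ 𝓝 (1 : G) := fun n => (W n).2
  have h1V : ∀ n, (1 : G) ∈ V n := fun n => mem_of_mem_nhds (hVn n)
  have hmul : ∀ n, V (n + 1) * V (n + 1) ⊆ V n := fun n => hf2 n _ _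
  have hinv : ∀ n, V (n + 1) ⊆ (V n)⁻¹ := fun n => hf3 n _ _
  have hconj : ∀ n, ∀ i ≤ n, ∀ x ∈ V (n + 1), e i * x * (e i)⁻¹ ∈ V n := fun n => hf4 n _ _
  have hne : ∀ n, e n ≠ 1 → e n ∉ V (n + 1) := fun n => hf5 n _ _
  have hanti : Antitone V := by
    refine antitone_nat_of_succ_le fun n x hx => ?_
    exact hmul n ⟨x, hx, 1, h1V (n + 1), mul_one x⟩
  let B : GroupFilterBasis G :=
    { sets := range V
      nonempty := ⟨_, mem_range_self 0⟩
      inter_sets := by
        rintro _ _ ⟨m, rfl⟩ ⟨n, rfl⟩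
        exact ⟨_, mem_range_self (max m n), subset_inter (hanti (le_max_left _ _))
          (hanti (le_max_right _ _))⟩
      one' := by
        rintro _ ⟨m, rfl⟩
        exact h1V m
      mul' := by
        rintro _ ⟨m, rfl⟩
        exact ⟨_, mem_range_self (m + 1), hmul m⟩
      inv' := by
        rintro _ ⟨m, rfl⟩
        exact ⟨_, mem_range_self (m + 1), hinv m⟩
      conj' := by
        rintro x _ ⟨m, rfl⟩
        obtain ⟨i, rfl⟩ := he x
        refine ⟨_, mem_range_self (max i m + 1), ?_⟩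
        intro y hy
        exact hanti (le_max_right i m) (hconj _ i (le_max_left _ _) y hy) }
  have hb : (@nhds G B.topology 1).HasBasis (fun _ : ℕ => True) V := by
    have h1 := B.nhds_one_hasBasis
    refine ⟨fun t => ?_⟩
    rw [h1.mem_iff]
    constructor
    · rintro ⟨_, ⟨m, rfl⟩, hm⟩
      exact ⟨m, trivial, hm⟩
    · rintro ⟨m, -, hm⟩
      exact ⟨_, ⟨m, rfl⟩, hm⟩
  have hg : @IsTopologicalGroup G B.topology _ := B.isTopologicalGroup
  refine ⟨V, B.topology, hg, ?_, ?_, hanti, hb⟩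
  · let := B.topology
    have := hg
    refine IsTopologicalGroup.t2Space_of_one_sep ?_
    intro x hx
    obtain ⟨n, rfl⟩ := he x
    exact ⟨V (n + 1), hb.mem_of_mem (i := n + 1) trivial, hne n hx⟩
  · refine le_of_nhds_le_nhds fun x => ?_
    have h1 : Tendsto (fun y : G => x⁻¹ * y) (@nhds G τ x) (@nhds G B.topology 1) := by
      have h2 : Tendsto (fun y : G => x⁻¹ * y) (@nhds G τ x) (@nhds G τ 1) := by
        have h3 := (continuous_const_mul (x⁻¹ : G)).tendsto x
        rwa [inv_mul_cancel] at h3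
      have h3 : @nhds G τ 1 ≤ @nhds G B.topology 1 := by
        intro s hs
        obtain ⟨m, -, hm⟩ := hb.mem_iff.1 hs
        exact mem_of_superset (hVn m) hm
      exact h2.trans h3
    have h2 : Tendsto (fun y : G => x * y) (@nhds G B.topology 1) (@nhds G B.topology x) := by
      let := B.topology
      have := hg
      have h3 := (continuous_const_mul (x : G)).tendsto 1
      rwa [mul_one] at h3
    have h3 := h2.comp h1
    have h4 : ((fun y : G => x * y) ∘ fun y : G => x⁻¹ * y) = id := by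
      funext y
      simp
    rw [h4] at h3
    exact h3

end

end Pool.Agent.TH572.FU
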