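import Mathlib

/-!
# Weight functions and the finest group topology in which given sequences converge
-/

set_option autoImplicit false

namespace Pool.Agent.TH572.FU

open Filter Topology Set

/-- `σ` is a Hausdorff group topology on `G` in which all sequences that are members of `S`
converge to the identity. -/
structure Admissible {G : Type} [Group G] (S : Set (ℕ → G)) (σ : TopologicalSpace G) : Prop where
  group : @IsTopologicalGroup G σ _
  t2 : @T2Space G σ
  conv : ∀ u ∈ S, Tendsto u atTop (@nhds G σ 1)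

/-- `τ = τ_S`: the topology `τ` is the finest Hausdorff group topology on `G` in which all
sequences that are members of `S` converge to the identity (in particular `S` is a `T_s`-set). -/
def IsTau {G : Type} [Group G] (S : Set (ℕ → G)) (τ : TopologicalSpace G) : Prop :=
  Admissible S τ ∧ ∀ σ : TopologicalSpace G, Admissible S σ → τ ≤ σ

section

variable {G : Type} [Group G]

/-- the cost of a list -/
def cost (w : G → ℝ) (L : List G) : ℝ := (L.map w).sum

@[simp] theorem cost_nil (w : G → ℝ) : cost w [] = 0 := rfl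

@[simp] theorem cost_cons (w : G → ℝ) (a : G) (L : List G) : cost w (a :: L) = w a + cost w L := by
  simp [cost]

@[simp] theorem cost_append (w : G → ℝ) (L M : List G) :
    cost w (L ++ M) = cost w L + cost w M := by
  simp [cost]

theorem cost_nonneg {w : G → ℝ} (hw : ∀ a, 0 ≤ w a) (L : List G) : 0 ≤ cost w L := by
  unfold cost
  exact List.sum_nonneg (by simpa using fun a _ => hw a)

/-- a set of sequences closed under conjugation and inversion -/
structure Closed (J : Set (ℕ → G)) : Prop where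
  conj : ∀ u ∈ J, ∀ g : G, (fun n => g * u n * g⁻¹) ∈ J
  inv : ∀ u ∈ J, (fun n => (u n)⁻¹) ∈ J

/-- basic neighbourhoods -/
def Bas (w : G → ℝ) (F : Finset G) (ε : ℝ) : Set G :=
  {x | ∀ g ∈ F, (∃ L : List G, L.prod = g * x * g⁻¹ ∧ cost w L < ε) ∧
    ∃ L : List G, L.prod = g * x⁻¹ * g⁻¹ ∧ cost w L < ε}

theorem Bas.one_mem (w : G → ℝ) (F : Finset G) {ε : ℝ} (hε : 0 < ε) : (1 : G) ∈ Bas w F ε :=
  fun g _ => ⟨⟨[], by simp, by simpa using hε⟩, ⟨[], by simp, by simpa using hε⟩⟩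

theorem Bas.mono (w : G → ℝ) {F F' : Finset G} (hF : F ⊆ F') {ε ε' : ℝ} (hε : ε' ≤ ε) :
    Bas w F' ε' ⊆ Bas w F ε := by
  intro x hx g hg
  obtain ⟨⟨L, h1, h2⟩, L', h3, h4⟩ := hx g (hF hg)
  exact ⟨⟨L, h1, h2.trans_le hε⟩, L', h3, h4.trans_le hε⟩

/-- the filter basis -/
def basis (w : G → ℝ) : GroupFilterBasis G where
  sets := {U | ∃ F : Finset G, ∃ ε : ℝ, 0 < ε ∧ U = Bas w F ε}
  nonempty := ⟨_, ∅, 1, one_pos, rfl⟩
  inter_sets := by
    classical
    rintro _ _ ⟨F, ε, hε, rfl⟩ ⟨F', ε', hε', rfl⟩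
    refine ⟨Bas w (F ∪ F') (min ε ε'), ⟨_, _, lt_min hε hε', rfl⟩, ?_⟩
    exact subset_inter (Bas.mono w Finset.subset_union_left (min_le_left _ _))
      (Bas.mono w Finset.subset_union_right (min_le_right _ _))
  one' := by
    rintro _ ⟨F, ε, hε, rfl⟩
    exact Bas.one_mem w F hε
  mul' := by
    rintro _ ⟨F, ε, hε, rfl⟩
    refine ⟨Bas w F (ε / 2), ⟨_, _, half_pos hε, rfl⟩, ?_⟩
    rintro _ ⟨x, hx, y, hy, rfl⟩ g hg
    obtain ⟨⟨L, h1, h2⟩, L', h3, h4⟩ := hx g hg
    obtain ⟨⟨M, k1, k2⟩, M', k3, k4⟩ := hy g hg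
    refine ⟨⟨L ++ M, ?_, ?_⟩, M' ++ L', ?_, ?_⟩
    · rw [List.prod_append, h1, k1]
      group
    · rw [cost_append]
      linarith
    · rw [List.prod_append, h3, k3]
      group
    · rw [cost_append]
      linarith
  inv' := by
    rintro _ ⟨F, ε, hε, rfl⟩
    refine ⟨Bas w F ε, ⟨_, _, hε, rfl⟩, ?_⟩
    intro x hx g hg
    obtain ⟨h1, h2⟩ := hx g hg
    refine ⟨h2, ?_⟩
    rw [inv_inv]
    exact h1
  conj' := by
    classical
    rintro x₀ _ ⟨F, ε, hε, rfl⟩
    refine ⟨Bas w (F.image (fun g => g * x₀)) ε, ⟨_, _, hε, rfl⟩, ?_⟩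
    intro x hx g hg
    obtain ⟨⟨L, h1, h2⟩, L', h3, h4⟩ := hx (g * x₀) (Finset.mem_image_of_mem _ hg)
    refine ⟨⟨L, ?_, h2⟩, L', ?_, h4⟩
    · rw [h1]
      group
    · rw [h3]
      group

theorem nhds_of_weight {S J : Set (ℕ → G)} {τ : TopologicalSpace G} (hτ : IsTau S τ)
    (hSJ : S ⊆ J) (hJ : Closed J) {w : G → ℝ}
    (hw : ∀ u ∈ J, Tendsto (fun n => w (u n)) atTop (𝓝 0)) {ε : ℝ} (hε : 0 < ε) :
    {x : G | ∃ L : List G, L.prod = x ∧ cost w L < ε} ∈ @nhds G τ 1 := by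
  have hσg : @IsTopologicalGroup G (basis w).topology _ := (basis w).isTopologicalGroup
  have hb := (basis w).nhds_one_hasBasis
  have hconv : ∀ u ∈ S, Tendsto u atTop (@nhds G (basis w).topology 1) := by
    intro u hu
    rw [hb.tendsto_right_iff]
    rintro _ ⟨F, δ, hδ, rfl⟩
    have h1 : ∀ g ∈ F, ∀ᶠ n in atTop, w (g * u n * g⁻¹) < δ ∧ w (g * (u n)⁻¹ * g⁻¹) < δ := by
      intro g _
      have h2 := hw _ (hJ.conj u (hSJ hu) g)
      have h3 := hw _ (hJ.conj _ (hJ.inv u (hSJ hu)) g)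
      exact (h2.eventually (gt_mem_nhds hδ)).and (h3.eventually (gt_mem_nhds hδ))
    filter_upwards [(Filter.eventually_all_finset F).2 h1] with n hn g hg
    exact ⟨⟨[g * u n * g⁻¹], by simp, by simpa using (hn g hg).1⟩,
      ⟨[g * (u n)⁻¹ * g⁻¹], by simp, by simpa using (hn g hg).2⟩⟩
  have hadm : Admissible S (τ ⊓ (basis w).topology) := by
    refine ⟨topologicalGroup_inf hτ.1.group hσg, ?_, ?_⟩
    · have h1 := hτ.1.t2
      exact @T2Space.of_injective_continuous G G (τ ⊓ (basis w).topology) τ h1 id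
        Function.injective_id (continuous_id_of_le inf_le_left)
    · intro u hu
      rw [nhds_inf]
      exact tendsto_inf.2 ⟨hτ.1.conv u hu, hconv u hu⟩
  have hle : τ ≤ (basis w).topology := (hτ.2 _ hadm).trans inf_le_right
  have h2 : @nhds G τ 1 ≤ @nhds G (basis w).topology 1 := nhds_mono hle
  apply h2
  refine hb.mem_iff.2 ⟨Bas w {1} ε, ⟨_, _, hε, rfl⟩, ?_⟩
  intro x hx
  obtain ⟨⟨L, h3, h4⟩, -⟩ := hx 1 (Finset.mem_singleton_self 1)
  exact ⟨L, by simpa using h3, h4⟩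

end

end Pool.Agent.TH572.FU
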