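import Mathlib
import Pool.Agent.TH572.FU.Weights
import Pool.Agent.TH572.FU.Coarse

/-!
# Convergent sequences in the topology generated by few sequences (Martin's axiom)
-/

set_option autoImplicit false

namespace Pool.Agent.TH572.FU

open Filter Topology Set Pointwise Cardinal

/-- A preordered set is `σ`-centred if it is a countable union of centred pieces. -/
def SigmaCentered (P : Type) [Preorder P] : Prop :=
  ∃ c : P → ℕ, ∀ F : Finset P, F.Nonempty → (∀ p ∈ F, ∀ q ∈ F, c p = c q) → ∃ r, ∀ p ∈ F, r ≤ p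

/-- Martin's axiom for `σ`-centred preordered sets and `κ` dense sets; by Bell's theorem this says
`κ < 𝔭`. -/
def MACentered (κ : Cardinal.{0}) : Prop :=
  ∀ (P : Type) [Preorder P] [Nonempty P], SigmaCentered P →
    ∀ 𝒟 : Set (Set P), #𝒟 ≤ κ → (∀ d ∈ 𝒟, ∀ p, ∃ q ∈ d, q ≤ p) →
      ∃ G : Set P, G.Nonempty ∧ (∀ p ∈ G, ∀ q, p ≤ q → q ∈ G) ∧
        (∀ p ∈ G, ∀ q ∈ G, ∃ r ∈ G, r ≤ p ∧ r ≤ q) ∧ ∀ d ∈ 𝒟, (G ∩ d).Nonempty

section

variable {G : Type} [Group G]

/-- the set which consists of `1`, the members of `F` and the terms of the sequences of `T` -/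
def base (F : Finset G) (T : Finset (ℕ → G)) : Set G :=
  insert 1 (↑F ∪ ⋃ u ∈ T, range u)

theorem one_mem_base (F : Finset G) (T : Finset (ℕ → G)) : (1 : G) ∈ base F T :=
  mem_insert _ _

theorem base_mono {F F' : Finset G} {T T' : Finset (ℕ → G)} (hF : F ⊆ F') (hT : T ⊆ T') :
    base F T ⊆ base F' T' := by
  refine insert_subset_insert (union_subset_union (by exact_mod_cast hF) ?_)
  exact biUnion_subset_biUnion_left (fun u hu => hT hu)

theorem prod_mem_pow {B : Set G} (h1 : (1 : G) ∈ B) :
    ∀ (L : List G) (m : ℕ), (∀ a ∈ L, a ∈ B) → L.length ≤ m → L.prod ∈ B ^ m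
  | [], m, _, _ => by
    have := pow_subset_pow (m := 0) (n := m) (Subset.refl B) h1 (Nat.zero_le _)
    rw [pow_zero] at this
    exact this rfl
  | a :: L, 0, _, h => by simp at h
  | a :: L, m + 1, hL, h => by
    rw [pow_succ', List.prod_cons]
    exact ⟨a, hL a (by simp), L.prod, prod_mem_pow h1 L m (fun b hb => hL b (by simp [hb]))
      (by simpa using h), rfl⟩

theorem cost_le_cost {w w' : G → ℝ} (L : List G) (h : ∀ a ∈ L, w a ≤ w' a) :
    cost w L ≤ cost w' L := by
  induction L with
  | nil => simp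
  | cons a L ih =>
    rw [cost_cons, cost_cons]
    exact add_le_add (h a (by simp)) (ih fun b hb => h b (by simp [hb]))

theorem length_mul_le_cost {w : G → ℝ} {δ : ℝ} (hδ : ∀ a, δ ≤ w a) (L : List G) :
    (L.length : ℝ) * δ ≤ cost w L := by
  induction L with
  | nil => simp
  | cons a L ih =>
    rw [cost_cons, List.length_cons]
    push_cast
    linarith [hδ a]

theorem limit_lists [μ : TopologicalSpace G] [IsTopologicalGroup G] [T2Space G]
    (U : Ultrafilter ℕ) (W : G → ℝ) (W' : ℕ → G → ℝ) (hW' : ∀ k a, 0 ≤ W' k a) (K : Set G)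
    (hstep : ∀ a : ℕ → G, (∀ᶠ k in (U : Filter ℕ), W' k (a k) < 1) →
      Tendsto a U (𝓝 1) ∨ ∃ b ∈ K, ∀ᶠ k in (U : Filter ℕ), a k = b ∧ W b ≤ W' k (a k)) :
    ∀ (r : ℕ) (L : ℕ → List G) (c : G),
      (∀ᶠ k in (U : Filter ℕ), (L k).length ≤ r ∧ cost (W' k) (L k) < 1) →
      Tendsto (fun k => (L k).prod) U (𝓝 c) →
      ∃ M : List G, (∀ a ∈ M, a ∈ K) ∧ M.prod = c ∧
        ∀ᶠ k in (U : Filter ℕ), cost W M ≤ cost (W' k) (L k) := by
  have hnil : ∀ (L : ℕ → List G) (c : G), (∀ᶠ k in (U : Filter ℕ), L k = []) →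
      Tendsto (fun k => (L k).prod) U (𝓝 c) →
      ∃ M : List G, (∀ a ∈ M, a ∈ K) ∧ M.prod = c ∧
        ∀ᶠ k in (U : Filter ℕ), cost W M ≤ cost (W' k) (L k) := by
    intro L c h1 h2
    refine ⟨[], by simp, ?_, ?_⟩
    · have h3 : Tendsto (fun k => (L k).prod) U (𝓝 1) :=
        tendsto_nhds_of_eventually_eq (by filter_upwards [h1] with k hk; rw [hk]; rfl)
      exact (tendsto_nhds_unique h3 h2)
    · filter_upwards [h1] with k hk
      rw [hk]
      simp
  intro r
  induction r with
  | zero =>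
    intro L c h1 h2
    refine hnil L c ?_ h2
    filter_upwards [h1] with k hk
    exact List.length_eq_zero_iff.1 (Nat.le_zero.1 hk.1)
  | succ r ih =>
    intro L c h1 h2
    by_cases h3 : ∀ᶠ k in (U : Filter ℕ), L k = []
    · exact hnil L c h3 h2
    · have h4 : ∀ᶠ k in (U : Filter ℕ), L k ≠ [] := Ultrafilter.eventually_not.2 h3
      let hd : ℕ → G := fun k => (L k).head?.getD 1
      let tl : ℕ → List G := fun k => (L k).tail
      have h5 : ∀ᶠ k in (U : Filter ℕ), L k = hd k :: tl k := by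
        filter_upwards [h4] with k hk
        change L k = (L k).head?.getD 1 :: (L k).tail
        cases hL : L k with
        | nil => exact absurd hL hk
        | cons a M => rfl
      have h6 : ∀ᶠ k in (U : Filter ℕ), W' k (hd k) < 1 := by
        filter_upwards [h1, h5] with k hk hk'
        have h7 := hk.2
        rw [hk', cost_cons] at h7
        linarith [cost_nonneg (hW' k) (tl k)]
      have h7 : ∀ᶠ k in (U : Filter ℕ), (tl k).length ≤ r ∧ cost (W' k) (tl k) < 1 := by
        filter_upwards [h1, h5] with k hk hk'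
        rw [hk', cost_cons, List.length_cons] at hk
        exact ⟨by omega, by linarith [hW' k (hd k), hk.2]⟩
      have h8 : ∀ᶠ k in (U : Filter ℕ), (tl k).prod = (hd k)⁻¹ * (L k).prod := by
        filter_upwards [h5] with k hk
        rw [hk, List.prod_cons, inv_mul_cancel_left]
      rcases hstep hd h6 with h9 | ⟨b, hb, h9⟩
      · have h10 : Tendsto (fun k => (tl k).prod) U (𝓝 c) := by
          have h11 := h9.inv.mul h2
          rw [inv_one, one_mul] at h11
          exact h11.congr' (by filter_upwards [h8] with k hk; rw [hk])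
        obtain ⟨M, hM1, hM2, hM3⟩ := ih tl c h7 h10
        refine ⟨M, hM1, hM2, ?_⟩
        filter_upwards [hM3, h5] with k hk hk'
        rw [hk', cost_cons]
        linarith [hW' k (hd k)]
      · have h10 : Tendsto (fun k => (tl k).prod) U (𝓝 (b⁻¹ * c)) := by
          have h11 := h2.const_mul b⁻¹
          exact h11.congr' (by filter_upwards [h8, h9] with k hk hk'; rw [hk, hk'.1])
        obtain ⟨M, hM1, hM2, hM3⟩ := ih tl (b⁻¹ * c) h7 h10
        refine ⟨b :: M, ?_, ?_, ?_⟩
        · intro a ha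
          rcases List.mem_cons.1 ha with rfl | ha
          · exact hb
          · exact hM1 a ha
        · rw [List.prod_cons, hM2, mul_inv_cancel_left]
        · filter_upwards [hM3, h5, h9] with k hk hk' hk''
          rw [hk', cost_cons, cost_cons]
          linarith [hk''.2]

end

end Pool.Agent.TH572.FU
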