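import Mathlib
import Pool.Agent.TH572.FU.Force1

/-!
# The forcing conditions for a weight function
-/

set_option autoImplicit false

namespace Pool.Agent.TH572.FU

open Filter Topology Set Pointwise Cardinal

section

variable {G : Type} [Group G]

/-- the weight function of a condition -/
noncomputable def wt (D : Finset G) (lev : G →₀ ℕ) (V : Set G) (n : ℕ) (a : G) : ℝ :=
  open Classical in
  if a ∈ D then (1 / 2 : ℝ) ^ lev a else if a ∈ V then (1 / 2 : ℝ) ^ n else 1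

theorem wt_nonneg (D : Finset G) (lev : G →₀ ℕ) (V : Set G) (n : ℕ) (a : G) :
    0 ≤ wt D lev V n a := by
  unfold wt
  split_ifs <;> positivity

/-- the conditions -/
structure Cond (J : Set (ℕ → G)) (V : ℕ → Set G) (C : Set G) where
  /-- the elements whose weight is decided -/
  D : Finset G
  /-- their levels -/
  lev : G →₀ ℕ
  /-- the elements of `C` which get norm at least one -/
  E : Finset G
  /-- the level of the new elements -/
  n : ℕ
  /-- the index of the neighbourhood which contains the new elements -/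
  k : ℕ
  /-- finitely many sequences -/
  T : Finset (ℕ → G)
  supp : ∀ a, a ∉ D → lev a = 0
  EC : ∀ c ∈ E, c ∈ C
  TJ : ∀ u ∈ T, u ∈ J
  tail : ∀ u ∈ T, ∀ i, u i ∉ D → u i ∈ V k
  valid : ∀ L : List G, L.prod ∈ E → 1 ≤ cost (wt D lev (V k) n) L

variable {J : Set (ℕ → G)} {V : ℕ → Set G} {C : Set G}

instance : Preorder (Cond J V C) where
  le q p := p.D ⊆ q.D ∧ (∀ a ∈ p.D, q.lev a = p.lev a) ∧ p.E ⊆ q.E ∧ p.n ≤ q.n ∧ p.T ⊆ q.T ∧
    ∀ a ∈ q.D, a ∉ p.D → (∃ u ∈ p.T, ∃ i, u i = a) → p.n ≤ q.lev a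
  le_refl p := ⟨subset_rfl, fun _ _ => rfl, subset_rfl, le_rfl, subset_rfl,
    fun a ha ha' => absurd ha ha'⟩
  le_trans r q p h1 h2 := by
    refine ⟨h2.1.trans h1.1, fun a ha => (h1.2.1 a (h2.1 ha)).trans (h2.2.1 a ha),
      h2.2.2.1.trans h1.2.2.1, h2.2.2.2.1.trans h1.2.2.2.1, h2.2.2.2.2.1.trans h1.2.2.2.2.1, ?_⟩
    intro a ha ha' h
    by_cases haq : a ∈ q.D
    · rw [h1.2.1 a haq]
      exact h2.2.2.2.2.2 a haq ha' h
    · obtain ⟨u, hu, hi⟩ := h
      exact h2.2.2.2.1.trans (h1.2.2.2.2.2 a ha haq ⟨u, h2.2.2.2.2.1 hu, hi⟩)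

theorem le_def (q p : Cond J V C) : q ≤ p ↔ p.D ⊆ q.D ∧ (∀ a ∈ p.D, q.lev a = p.lev a) ∧
    p.E ⊆ q.E ∧ p.n ≤ q.n ∧ p.T ⊆ q.T ∧
    ∀ a ∈ q.D, a ∉ p.D → (∃ u ∈ p.T, ∃ i, u i = a) → p.n ≤ q.lev a := Iff.rfl

theorem sigmaCentered [Countable G] : SigmaCentered (Cond J V C) := by
  classical
  obtain ⟨e, he⟩ := exists_injective_nat (Finset G × (G →₀ ℕ) × Finset G × ℕ × ℕ)
  refine ⟨fun p => e (p.D, p.lev, p.E, p.n, p.k), fun F hF hc => ?_⟩
  obtain ⟨p0, hp0⟩ := hF
  have hc' : ∀ p ∈ F, p.D = p0.D ∧ p.lev = p0.lev ∧ p.E = p0.E ∧ p.n = p0.n ∧ p.k = p0.k := by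
    intro p hp
    have h1 := he (hc p hp p0 hp0)
    simpa using h1
  refine ⟨⟨p0.D, p0.lev, p0.E, p0.n, p0.k, F.biUnion fun p => p.T, p0.supp, p0.EC, ?_, ?_,
    p0.valid⟩, ?_⟩
  · intro u hu
    obtain ⟨p, hp, hup⟩ := Finset.mem_biUnion.1 hu
    exact p.TJ u hup
  · intro u hu i hi
    obtain ⟨p, hp, hup⟩ := Finset.mem_biUnion.1 hu
    obtain ⟨h1, -, -, -, h2⟩ := hc' p hp
    have h3 := p.tail u hup i (by rw [h1]; exact hi)
    rwa [h2] at h3
  · intro p hp
    obtain ⟨h1, h2, h3, h4, h5⟩ := hc' p hp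
    refine ⟨h1.subset, fun a _ => by rw [h2], h3.subset, h4.le,
      Finset.subset_biUnion_of_mem (fun p => p.T) hp, fun a ha ha' => ?_⟩
    rw [h1] at ha'
    exact absurd ha ha'

/-- the trivial condition -/
def Cond.triv : Cond J V C where
  D := ∅
  lev := 0
  E := ∅
  n := 0
  k := 0
  T := ∅
  supp := by simp
  EC := by simp
  TJ := by simp
  tail := by simp
  valid := by simp

instance : Nonempty (Cond J V C) := ⟨Cond.triv⟩

/-- the set of the indices of the terms of a null sequence outside a neighbourhood -/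
theorem finite_outside [μ : TopologicalSpace G] {u : ℕ → G} (hu : Tendsto u atTop (𝓝 1))
    {U : Set G} (hU : U ∈ 𝓝 (1 : G)) : {a | ∃ i, u i = a ∧ a ∉ U}.Finite := by
  have h1 : {i | u i ∉ U}.Finite := by
    have h2 := hu.eventually hU
    rw [← Nat.cofinite_eq_atTop] at h2
    exact h2
  refine (h1.image u).subset ?_
  rintro a ⟨i, rfl, hi⟩
  exact ⟨i, hi, rfl⟩

theorem dense_seq [μ : TopologicalSpace G] (hV : (𝓝 (1 : G)).HasBasis (fun _ => True) V)
    {u : ℕ → G} (huJ : u ∈ J) (hu : Tendsto u atTop (𝓝 1)) (p : Cond J V C) :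
    ∃ q : Cond J V C, u ∈ q.T ∧ q ≤ p := by
  classical
  have hfin := finite_outside hu (hV.mem_of_mem (i := p.k) trivial)
  have hmem : ∀ a, a ∈ p.D ∪ hfin.toFinset ↔ a ∈ p.D ∨ ∃ i, u i = a ∧ a ∉ V p.k := by
    intro a
    simp
  have hwt : wt (p.D ∪ hfin.toFinset) p.lev (V p.k) p.n = wt p.D p.lev (V p.k) p.n := by
    funext a
    unfold wt
    by_cases h1 : a ∈ p.D
    · rw [if_pos h1, if_pos ((hmem a).2 (Or.inl h1))]
    · by_cases h2 : ∃ i, u i = a ∧ a ∉ V p.k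
      · rw [if_neg h1, if_pos ((hmem a).2 (Or.inr h2)), p.supp a h1, pow_zero]
        obtain ⟨i, -, h3⟩ := h2
        rw [if_neg h3]
      · rw [if_neg h1, if_neg (fun h => ((hmem a).1 h).elim h1 h2)]
  refine ⟨⟨p.D ∪ hfin.toFinset, p.lev, p.E, p.n, p.k, insert u p.T, ?_, p.EC, ?_, ?_, ?_⟩,
    Finset.mem_insert_self _ _, ?_⟩
  · intro a ha
    exact p.supp a fun h => ha ((hmem a).2 (Or.inl h))
  · intro v hv
    rcases Finset.mem_insert.1 hv with rfl | hv
    · exact huJ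
    · exact p.TJ v hv
  · intro v hv i hi
    rcases Finset.mem_insert.1 hv with rfl | hv
    · by_contra h
      exact hi ((hmem _).2 (Or.inr ⟨i, rfl, h⟩))
    · exact p.tail v hv i fun h => hi ((hmem _).2 (Or.inl h))
  · rw [hwt]
    exact p.valid
  · refine ⟨Finset.subset_union_left, fun _ _ => rfl, subset_rfl, le_rfl,
      Finset.subset_insert _ _, ?_⟩
    rintro a ha ha' ⟨v, hv, i, rfl⟩
    exfalso
    rcases (hmem _).1 ha with h | ⟨-, -, h⟩
    · exact ha' h
    · exact h (p.tail v hv i ha')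

theorem dense_elt (a₀ : G) (p : Cond J V C) : ∃ q : Cond J V C, a₀ ∈ q.D ∧ q ≤ p := by
  classical
  by_cases h0 : a₀ ∈ p.D
  · exact ⟨p, h0, le_rfl⟩
  let x : ℕ := if a₀ ∈ V p.k then p.n else 0
  have hlev : ∀ a, a ≠ a₀ → (p.lev.update a₀ x) a = p.lev a := by
    intro a ha
    rw [Finsupp.coe_update, Function.update_of_ne ha]
  have hlev0 : (p.lev.update a₀ x) a₀ = x := by
    rw [Finsupp.coe_update, Function.update_self]
  have hwt : wt (insert a₀ p.D) (p.lev.update a₀ x) (V p.k) p.n =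
      wt p.D p.lev (V p.k) p.n := by
    funext a
    unfold wt
    by_cases h1 : a = a₀
    · subst h1
      rw [if_pos (Finset.mem_insert_self _ _), if_neg h0, hlev0]
      by_cases h2 : a ∈ V p.k
      · rw [if_pos h2, show x = p.n from if_pos h2]
      · rw [if_neg h2, show x = 0 from if_neg h2, pow_zero]
    · rw [hlev a h1]
      by_cases h2 : a ∈ p.D
      · rw [if_pos h2, if_pos (Finset.mem_insert_of_mem h2)]
      · rw [if_neg h2, if_neg (fun h => (Finset.mem_insert.1 h).elim h1 h2)]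
  refine ⟨⟨insert a₀ p.D, p.lev.update a₀ x, p.E, p.n, p.k, p.T, ?_, p.EC, p.TJ, ?_, ?_⟩,
    Finset.mem_insert_self _ _, ?_⟩
  · intro a ha
    rw [Finset.mem_insert, not_or] at ha
    rw [hlev a ha.1]
    exact p.supp a ha.2
  · intro v hv i hi
    exact p.tail v hv i fun h => hi (Finset.mem_insert_of_mem h)
  · rw [hwt]
    exact p.valid
  · refine ⟨Finset.subset_insert _ _, ?_, subset_rfl, le_rfl, subset_rfl, ?_⟩
    · intro a ha
      exact hlev a (fun h => h0 (h ▸ ha))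
    · rintro a ha ha' ⟨v, hv, i, rfl⟩
      rcases Finset.mem_insert.1 ha with h | h
      · have h2 := p.tail v hv i ha'
        change p.n ≤ (p.lev.update a₀ x) (v i)
        rw [h, hlev0, show x = p.n from if_pos (h ▸ h2)]
      · exact absurd h ha'

end

end Pool.Agent.TH572.FU
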