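import Mathlib
import Pool.Agent.TH572.FU.Cond

/-!
# The main density argument
-/

set_option autoImplicit false

namespace Pool.Agent.TH572.FU

open Filter Topology Set Pointwise Cardinal

section

variable {G : Type} [Group G] {J : Set (ℕ → G)} {V : ℕ → Set G} {C : Set G}

/-- the terms of the sequences of a condition and the decided elements -/
def Cond.K (p : Cond J V C) : Set G := {a | a ∈ p.D ∨ ∃ u ∈ p.T, ∃ i, u i = a}

/-- the weight function of a condition -/
noncomputable def Cond.W (p : Cond J V C) : G → ℝ := wt p.D p.lev (V p.k) p.n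

theorem ultra_const_or {U : Ultrafilter ℕ} (i : ℕ → ℕ) :
    Tendsto i U atTop ∨ ∃ m, ∀ᶠ k in (U : Filter ℕ), i k = m := by
  by_cases h : ∀ m, ∀ᶠ k in (U : Filter ℕ), m ≤ i k
  · left
    exact tendsto_atTop.2 h
  · right
    push Not at h
    obtain ⟨m, hm⟩ := h
    have h1 : ∀ᶠ k in (U : Filter ℕ), ∃ j ∈ Iio m, i k = j := by
      filter_upwards [hm] with k hk
      exact ⟨i k, by simpa using hk, rfl⟩
    obtain ⟨j, -, hj⟩ := (Ultrafilter.eventually_exists_mem_iff (finite_Iio m)).1 h1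
    exact ⟨j, hj⟩

theorem shrink [μ : TopologicalSpace G] [IsTopologicalGroup G] [T2Space G]
    (hVa : Antitone V) (hV : (𝓝 (1 : G)).HasBasis (fun _ => True) V)
    (hJ : ∀ u ∈ J, Tendsto u atTop (𝓝 1)) (p : Cond J V C) (E : Finset G) (hE : p.E ⊆ E)
    (hEC : ∀ c ∈ E, c ∈ C)
    (hEK : ∀ L : List G, (∀ a ∈ L, a ∈ p.K) → cost p.W L < 1 → L.prod ∉ E) :
    ∃ q : Cond J V C, q ≤ p ∧ q.E = E ∧ q.n = p.n + 1 := by
  classical
  have hfin : ∀ k, {a | ∃ u ∈ p.T, ∃ i, u i = a ∧ a ∉ V k}.Finite := by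
    intro k
    have h1 : {a | ∃ u ∈ p.T, ∃ i, u i = a ∧ a ∉ V k} =
        ⋃ u ∈ p.T, {a | ∃ i, u i = a ∧ a ∉ V k} := by
      ext a
      simp only [mem_iUnion, mem_ofPred_eq, exists_prop]
    rw [h1]
    exact p.T.finite_toSet.biUnion fun u hu =>
      finite_outside (hJ u (p.TJ u hu)) (hV.mem_of_mem (i := k) trivial)
  let D' : ℕ → Finset G := fun k => p.D ∪ (hfin k).toFinset
  have hD' : ∀ k a, a ∈ D' k ↔ a ∈ p.D ∨ ∃ u ∈ p.T, ∃ i, u i = a ∧ a ∉ V k := by
    intro k a
    simp [D']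
  let lev' : ℕ → G →₀ ℕ := fun k => Finsupp.onFinset (D' k)
    (fun a => if a ∈ p.D then p.lev a else if a ∈ D' k then p.n else 0) (by
      intro a ha
      by_contra h
      rw [if_neg (fun h' => h ((hD' k a).2 (Or.inl h'))), if_neg h] at ha
      exact ha rfl)
  have hlev' : ∀ k a, lev' k a = if a ∈ p.D then p.lev a else if a ∈ D' k then p.n else 0 :=
    fun k a => rfl
  let W' : ℕ → G → ℝ := fun k => wt (D' k) (lev' k) (V k) (p.n + 1)
  have hW'1 : ∀ k a, a ∈ p.D → W' k a = (1 / 2 : ℝ) ^ p.lev a := by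
    intro k a ha
    change wt _ _ _ _ _ = _
    unfold wt
    rw [if_pos ((hD' k a).2 (Or.inl ha)), hlev', if_pos ha]
  have hW'2 : ∀ k a, a ∉ p.D → a ∈ D' k → W' k a = (1 / 2 : ℝ) ^ p.n := by
    intro k a ha ha'
    change wt _ _ _ _ _ = _
    unfold wt
    rw [if_pos ha', hlev', if_neg ha, if_pos ha']
  have hW'3 : ∀ k a, a ∉ D' k → a ∉ V k → W' k a = 1 := by
    intro k a ha ha'
    change wt _ _ _ _ _ = _
    unfold wt
    rw [if_neg ha, if_neg ha']
  have hW1 : ∀ a ∈ p.D, p.W a = (1 / 2 : ℝ) ^ p.lev a := by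
    intro a ha
    unfold Cond.W wt
    rw [if_pos ha]
  have hW2 : ∀ a, a ∉ p.D → (∃ u ∈ p.T, ∃ i, u i = a) → p.W a = (1 / 2 : ℝ) ^ p.n := by
    rintro a ha ⟨u, hu, i, rfl⟩
    unfold Cond.W wt
    rw [if_neg ha, if_pos (p.tail u hu i ha)]
  have hmain : ∃ k, p.k ≤ k ∧ ∀ L : List G, L.prod ∈ E → 1 ≤ cost (W' k) L := by
    by_contra hcon
    push Not at hcon
    have hcon' : ∀ k, ∃ L : List G, p.k ≤ k → L.prod ∈ E ∧ cost (W' k) L < 1 := by
      intro k
      by_cases hk : p.k ≤ k
      · obtain ⟨L, hL⟩ := hcon k hk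
        exact ⟨L, fun _ => hL⟩
      · exact ⟨[], fun h => absurd h hk⟩
    choose L hL using hcon'
    let U : Ultrafilter ℕ := Ultrafilter.of atTop
    have hU : (U : Filter ℕ) ≤ atTop := Ultrafilter.of_le atTop
    have hev : ∀ m, ∀ᶠ k in (U : Filter ℕ), m ≤ k := fun m => hU (eventually_ge_atTop m)
    -- lower bound of the weights
    let M : ℕ := p.D.sup (fun a => p.lev a) + (p.n + 1)
    have hδ : ∀ k a, (1 / 2 : ℝ) ^ M ≤ W' k a := by
      intro k a
      by_cases h1 : a ∈ p.D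
      · rw [hW'1 k a h1]
        refine pow_le_pow_of_le_one (by norm_num) (by norm_num) ?_
        exact (Finset.le_sup (f := fun a => p.lev a) h1).trans (Nat.le_add_right _ _)
      · by_cases h2 : a ∈ D' k
        · rw [hW'2 k a h1 h2]
          refine pow_le_pow_of_le_one (by norm_num) (by norm_num) ?_
          change p.n ≤ _ + (p.n + 1)
          omega
        · by_cases h3 : a ∈ V k
          · have h4 : W' k a = (1 / 2 : ℝ) ^ (p.n + 1) := by
              change wt _ _ _ _ _ = _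
              unfold wt
              rw [if_neg h2, if_pos h3]
            rw [h4]
            exact pow_le_pow_of_le_one (by norm_num) (by norm_num) (Nat.le_add_left _ _)
          · rw [hW'3 k a h2 h3]
            exact pow_le_one₀ (by norm_num) (by norm_num)
    have hlen : ∀ᶠ k in (U : Filter ℕ), (L k).length ≤ 2 ^ M ∧ cost (W' k) (L k) < 1 := by
      filter_upwards [hev p.k] with k hk
      refine ⟨?_, (hL k hk).2⟩
      have h1 := length_mul_le_cost (hδ k) (L k)
      have h2 : ((L k).length : ℝ) * (1 / 2 : ℝ) ^ M < 1 := h1.trans_lt (hL k hk).2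
      have h3 : ((L k).length : ℝ) < 2 ^ M := by
        rw [one_div, inv_pow, ← div_eq_mul_inv, div_lt_one (by positivity)] at h2
        exact h2
      have h4 : (L k).length < 2 ^ M := by exact_mod_cast h3
      exact h4.le
    have hprod : ∀ᶠ k in (U : Filter ℕ), ∃ c ∈ (E : Set G), (L k).prod = c := by
      filter_upwards [hev p.k] with k hk
      exact ⟨_, (hL k hk).1, rfl⟩
    obtain ⟨c, hcE, hc⟩ := (Ultrafilter.eventually_exists_mem_iff E.finite_toSet).1 hprod
    have htend : Tendsto (fun k => (L k).prod) U (𝓝 c) :=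
      tendsto_nhds_of_eventually_eq hc
    have hstep : ∀ a : ℕ → G, (∀ᶠ k in (U : Filter ℕ), W' k (a k) < 1) →
        Tendsto a U (𝓝 1) ∨
          ∃ b ∈ p.K, ∀ᶠ k in (U : Filter ℕ), a k = b ∧ p.W b ≤ W' k (a k) := by
      intro a ha
      by_cases h1 : ∀ᶠ k in (U : Filter ℕ), a k ∈ V k
      · left
        rw [hV.tendsto_right_iff]
        intro m _
        filter_upwards [h1, hev m] with k hk hk' using hVa hk' hk
      have h1' := Ultrafilter.eventually_not.2 h1
      by_cases h2 : ∀ᶠ k in (U : Filter ℕ), a k ∈ p.D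
      · right
        have h3 : ∀ᶠ k in (U : Filter ℕ), ∃ b ∈ (p.D : Set G), a k = b := by
          filter_upwards [h2] with k hk using ⟨_, hk, rfl⟩
        obtain ⟨b, hb, hb'⟩ := (Ultrafilter.eventually_exists_mem_iff p.D.finite_toSet).1 h3
        refine ⟨b, Or.inl hb, ?_⟩
        filter_upwards [hb'] with k hk
        refine ⟨hk, ?_⟩
        rw [hk, hW1 b hb, hW'1 k b hb]
      have h2' := Ultrafilter.eventually_not.2 h2
      have h3 : ∀ᶠ k in (U : Filter ℕ), a k ∈ D' k := by
        filter_upwards [ha, h1'] with k hk hk'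
        by_contra h
        rw [hW'3 k _ h hk'] at hk
        exact lt_irrefl _ hk
      have h4 : ∀ᶠ k in (U : Filter ℕ), ∃ u ∈ (p.T : Set (ℕ → G)), ∃ i, u i = a k := by
        filter_upwards [h2', h3] with k hk hk'
        rcases (hD' k _).1 hk' with h | ⟨u, hu, i, hi, -⟩
        · exact absurd h hk
        · exact ⟨u, hu, i, hi⟩
      obtain ⟨u, hu, hu'⟩ := (Ultrafilter.eventually_exists_mem_iff p.T.finite_toSet).1 h4
      have h5 : ∀ k, ∃ i, (∃ i, u i = a k) → u i = a k := by
        intro k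
        by_cases h : ∃ i, u i = a k
        · obtain ⟨i, hi⟩ := h
          exact ⟨i, fun _ => hi⟩
        · exact ⟨0, fun h' => absurd h' h⟩
      choose i hi using h5
      rcases ultra_const_or (U := U) i with h6 | ⟨m, h6⟩
      · left
        have h7 := (hJ u (p.TJ u hu)).comp h6
        refine h7.congr' ?_
        filter_upwards [hu'] with k hk using hi k hk
      · right
        refine ⟨u m, Or.inr ⟨u, hu, m, rfl⟩, ?_⟩
        filter_upwards [hu', h6, h2', h3] with k hk hk' hk'' hk'''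
        have h8 : a k = u m := by rw [← hi k hk, hk']
        refine ⟨h8, ?_⟩
        rw [hW2 (u m) (h8 ▸ hk'') ⟨u, hu, m, rfl⟩, hW'2 k _ hk'' hk''']
    obtain ⟨M', hM1, hM2, hM3⟩ := limit_lists U p.W W'
      (fun k a => wt_nonneg _ _ _ _ a) p.K hstep (2 ^ M) L c hlen htend
    obtain ⟨k, hk, hk'⟩ := (hM3.and hlen).exists
    exact hEK M' hM1 (hk.trans_lt hk'.2) (hM2 ▸ hcE)
  obtain ⟨k, hk, hkL⟩ := hmain
  refine ⟨⟨D' k, lev' k, E, p.n + 1, k, p.T, ?_, hEC, p.TJ, ?_, hkL⟩, ?_, rfl, rfl⟩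
  · intro a ha
    rw [hlev', if_neg (fun h' => ha ((hD' k a).2 (Or.inl h'))), if_neg ha]
  · intro u hu i hi
    by_contra h
    exact hi ((hD' k _).2 (Or.inr ⟨u, hu, i, rfl, h⟩))
  · refine ⟨Finset.subset_union_left, ?_, hE, Nat.le_succ _, subset_rfl, ?_⟩
    · intro a ha
      change lev' k a = _
      rw [hlev', if_pos ha]
    · intro a ha ha' _
      change _ ≤ lev' k a
      rw [hlev', if_neg ha', if_pos ha]

/-- the weights of a condition on its set `K` are bounded below, so the lists of small cost are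
short -/
theorem Cond.length_le (p : Cond J V C) :
    ∃ m : ℕ, ∀ L : List G, cost p.W L < 1 → L.length ≤ m := by
  classical
  refine ⟨2 ^ (p.D.sup (fun a => p.lev a) + p.n), fun L hL => ?_⟩
  have hδ : ∀ a, (1 / 2 : ℝ) ^ (p.D.sup (fun a => p.lev a) + p.n) ≤ p.W a := by
    intro a
    unfold Cond.W wt
    split_ifs with h1 h2
    · refine pow_le_pow_of_le_one (by norm_num) (by norm_num) ?_
      exact (Finset.le_sup (f := fun a => p.lev a) h1).trans (Nat.le_add_right _ _)
    · exact pow_le_pow_of_le_one (by norm_num) (by norm_num) (Nat.le_add_left _ _)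
    · exact pow_le_one₀ (by norm_num) (by norm_num)
  have h1 := length_mul_le_cost hδ L
  have h2 : ((L.length : ℕ) : ℝ) * (1 / 2 : ℝ) ^ (p.D.sup (fun a => p.lev a) + p.n) < 1 :=
    h1.trans_lt hL
  have h3 : (L.length : ℝ) < 2 ^ (p.D.sup (fun a => p.lev a) + p.n) := by
    rw [one_div, inv_pow, ← div_eq_mul_inv, div_lt_one (by positivity)] at h2
    exact h2
  have h4 : L.length < 2 ^ (p.D.sup (fun a => p.lev a) + p.n) := by exact_mod_cast h3
  exact h4.le

end

end Pool.Agent.TH572.FU
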