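import Mathlib
import Pool.Agent.TH572.FU.Shrink

/-!
# Every convergent sequence is captured by finitely many of the given ones
-/

set_option autoImplicit false

namespace Pool.Agent.TH572.FU

open Filter Topology Set Pointwise Cardinal

section

variable {G : Type} [Group G]

theorem cost_filter_one {w : G → ℝ} (h1 : w 1 = 0) [DecidableEq G] (L : List G) :
    cost w (L.filter (· ≠ 1)) = cost w L ∧ (L.filter (· ≠ 1)).prod = L.prod := by
  induction L with
  | nil => simp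
  | cons a L ih =>
    by_cases ha : a = 1
    · subst ha
      simp only [ne_eq, not_true_eq_false, decide_false, Bool.false_eq_true, not_false_eq_true,
        List.filter_cons_of_neg, cost_cons, h1, zero_add, List.prod_cons, one_mul]
      exact ih
    · rw [List.filter_cons_of_pos (by simpa using ha), cost_cons, cost_cons, List.prod_cons,
        List.prod_cons, ih.1, ih.2]
      exact ⟨rfl, rfl⟩

theorem capture [Countable G] {S J : Set (ℕ → G)} {τ : TopologicalSpace G} (hτ : IsTau S τ)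
    (hSJ : S ⊆ J) (hJ : Closed J) (hJt : ∀ u ∈ J, Tendsto u atTop (@nhds G τ 1))
    {κ : Cardinal.{0}} (hκ : ℵ₀ ≤ κ) (hJκ : #J ≤ κ) (hMA : MACentered κ) (C : Set G)
    (hC : ∀ U ∈ @nhds G τ 1, (C \ U).Finite) :
    ∃ (F : Finset G) (T : Finset (ℕ → G)), (∀ u ∈ T, u ∈ J) ∧
      ∃ m : ℕ, (C \ base F T ^ m).Finite := by
  classical
  by_contra hcon
  push Not at hcon
  have hτg := hτ.1.group
  have hτ2 := hτ.1.t2
  obtain ⟨V, μ, hμg, hμ2, hle, hVa, hV⟩ := exists_coarse (G := G)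
  have hJμ : ∀ u ∈ J, Tendsto u atTop (@nhds G μ 1) := fun u hu =>
    (hJt u hu).mono_right (nhds_mono hle)
  have hsub : ∀ p : Cond J V C, p.K ⊆ base p.D p.T := by
    intro p a ha
    rcases ha with ha | ⟨u, hu, i, hi⟩
    · exact Or.inr (Or.inl ha)
    · exact Or.inr (Or.inr (mem_biUnion hu ⟨i, hi⟩))
  have hshrink := fun p E h1 h2 h3 =>
    @shrink G _ J V C μ hμg hμ2 hVa hV hJμ p E h1 h2 h3
  -- the dense sets
  have hd1 : ∀ (u : J) (p : Cond J V C), ∃ q ∈ {p : Cond J V C | u.1 ∈ p.T}, q ≤ p :=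
    fun u p => @dense_seq G _ J V C μ hV u.1 u.2 (hJμ u.1 u.2) p
  have hd2 : ∀ (a : G) (p : Cond J V C), ∃ q ∈ {p : Cond J V C | a ∈ p.D}, q ≤ p :=
    fun a p => dense_elt a p
  have hd3 : ∀ (A : Finset G) (p : Cond J V C),
      ∃ q ∈ {p : Cond J V C | ∃ c ∈ p.E, c ∉ A}, q ≤ p := by
    intro A p
    obtain ⟨m, hm⟩ := p.length_le
    obtain ⟨c, ⟨hcC, hcB⟩, hcA⟩ := ((hcon p.D p.T p.TJ m).sdiff A.finite_toSet).nonempty
    obtain ⟨q, hq1, hq2, hq3⟩ := hshrink p (insert c p.E) (Finset.subset_insert _ _) (by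
      intro x hx
      rcases Finset.mem_insert.1 hx with rfl | hx
      · exact hcC
      · exact p.EC x hx) (by
      intro L hL hcost hmem
      rcases Finset.mem_insert.1 hmem with h | h
      · apply hcB
        rw [← h]
        exact prod_mem_pow (one_mem_base _ _) L m (fun a ha => hsub p (hL a ha)) (hm L hcost)
      · exact absurd (p.valid L h) (not_le.2 hcost))
    exact ⟨q, ⟨c, by rw [hq2]; exact Finset.mem_insert_self _ _, fun h => hcA h⟩, hq1⟩
  have hd4 : ∀ (n : ℕ) (p : Cond J V C), ∃ q ∈ {p : Cond J V C | n ≤ p.n}, q ≤ p := by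
    intro n
    induction n with
    | zero => exact fun p => ⟨p, Nat.zero_le _, le_rfl⟩
    | succ n ih =>
      intro p
      obtain ⟨q, hq, hqp⟩ := ih p
      obtain ⟨r, hr1, hr2, hr3⟩ := hshrink q q.E subset_rfl q.EC (by
        intro L hL hcost hmem
        exact absurd (q.valid L hmem) (not_le.2 hcost))
      refine ⟨r, ?_, hr1.trans hqp⟩
      change n + 1 ≤ r.n
      rw [hr3]
      exact Nat.succ_le_succ hq
  let 𝒟 : Set (Set (Cond J V C)) :=
    (range (fun u : J => {p : Cond J V C | u.1 ∈ p.T}) ∪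
      range (fun a : G => {p : Cond J V C | a ∈ p.D})) ∪
      (range (fun A : Finset G => {p : Cond J V C | ∃ c ∈ p.E, c ∉ A}) ∪
      range (fun n : ℕ => {p : Cond J V C | n ≤ p.n}))
  have hcard : #𝒟 ≤ κ := by
    have hc : ∀ (I : Type) [Countable I] (f : I → Set (Cond J V C)), #(range f) ≤ κ := by
      intro I _ f
      exact mk_range_le.trans ((mk_le_aleph0 (α := I)).trans hκ)
    have h1 : #(range (fun u : J => {p : Cond J V C | u.1 ∈ p.T})) ≤ κ :=
      mk_range_le.trans hJκ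
    have h2 := hc G fun a : G => {p : Cond J V C | a ∈ p.D}
    have h3 := hc (Finset G) fun A : Finset G => {p : Cond J V C | ∃ c ∈ p.E, c ∉ A}
    have h4 := hc ℕ fun n : ℕ => {p : Cond J V C | n ≤ p.n}
    have hadd : κ + κ ≤ κ := (Cardinal.add_eq_self hκ).le
    exact ((mk_union_le _ _).trans (add_le_add ((mk_union_le _ _).trans
      ((add_le_add h1 h2).trans hadd)) ((mk_union_le _ _).trans
      ((add_le_add h3 h4).trans hadd)))).trans hadd
  obtain ⟨Γ, hΓne, hΓup, hΓdir, hΓd⟩ := hMA (Cond J V C) sigmaCentered 𝒟 hcard (by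
    rintro d ((⟨u, rfl⟩ | ⟨a, rfl⟩) | (⟨A, rfl⟩ | ⟨n, rfl⟩))
    · exact hd1 u
    · exact hd2 a
    · exact hd3 A
    · exact hd4 n)
  have hm2 : ∀ a : G, ∃ p ∈ Γ, a ∈ p.D := by
    intro a
    obtain ⟨p, hp, hp'⟩ := hΓd _ (Or.inl (Or.inr ⟨a, rfl⟩))
    exact ⟨p, hp, hp'⟩
  choose pa hpa hpa' using hm2
  let w : G → ℝ := fun a => if a = 1 then 0 else (1 / 2 : ℝ) ^ (pa a).lev a
  have hw1 : w 1 = 0 := if_pos rfl
  have hwa : ∀ p ∈ Γ, ∀ a ∈ p.D, a ≠ 1 → w a = (1 / 2 : ℝ) ^ p.lev a := by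
    intro p hp a ha ha1
    obtain ⟨r, -, hr1, hr2⟩ := hΓdir p hp (pa a) (hpa a)
    change (if a = 1 then 0 else (1 / 2 : ℝ) ^ (pa a).lev a) = _
    rw [if_neg ha1, ← hr1.2.1 a ha, ← hr2.2.1 a (hpa' a)]
  have hw : ∀ u ∈ J, Tendsto (fun n => w (u n)) atTop (𝓝 0) := by
    intro u hu
    rw [Metric.tendsto_atTop]
    intro ε hε
    obtain ⟨m, hm⟩ := exists_pow_lt_of_lt_one hε (show (1 / 2 : ℝ) < 1 by norm_num)
    obtain ⟨p, hp, hp'⟩ := hΓd _ (Or.inl (Or.inl ⟨⟨u, hu⟩, rfl⟩))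
    obtain ⟨p', hp1, hp1'⟩ := hΓd _ (Or.inr (Or.inr ⟨m, rfl⟩))
    obtain ⟨r, hrΓ, hr1, hr2⟩ := hΓdir p hp p' hp1
    have hru : u ∈ r.T := hr1.2.2.2.2.1 hp'
    have hrn : m ≤ r.n := le_trans hp1' hr2.2.2.2.1
    have hev : ∀ᶠ i in atTop, u i ∉ (r.D.erase 1 : Finset G) := by
      have h1 : ((r.D.erase 1 : Finset G) : Set G)ᶜ ∈ @nhds G μ 1 := by
        have h2 : @IsClosed G μ ((r.D.erase 1 : Finset G) : Set G) :=
          @Finset.isClosed G μ _ _
        exact h2.isOpen_compl.mem_nhds (by simp)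
      exact (hJμ u hu).eventually h1
    obtain ⟨N, hN⟩ := eventually_atTop.1 hev
    refine ⟨N, fun i hi => ?_⟩
    rw [dist_zero_right, Real.norm_eq_abs]
    by_cases h1 : u i = 1
    · rw [h1, hw1, abs_zero]
      exact hε
    · have h2 : u i ∉ r.D := fun h => hN i hi (Finset.mem_erase.2 ⟨h1, h⟩)
      obtain ⟨q, hqΓ, hq1, hq2⟩ := hΓdir r hrΓ (pa (u i)) (hpa (u i))
      have h3 : u i ∈ q.D := hq2.1 (hpa' _)
      have h4 : r.n ≤ q.lev (u i) := hq1.2.2.2.2.2 _ h3 h2 ⟨u, hru, i, rfl⟩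
      rw [hwa q hqΓ _ h3 h1, abs_of_pos (by positivity)]
      refine lt_of_le_of_lt ?_ hm
      exact pow_le_pow_of_le_one (by norm_num) (by norm_num) (hrn.trans h4)
  have hN := nhds_of_weight hτ hSJ hJ hw one_pos
  have hfin := hC _ hN
  obtain ⟨p, hp, c, hcE, hcA⟩ := hΓd _ (Or.inr (Or.inl ⟨hfin.toFinset, rfl⟩))
  have hcN : c ∈ {x : G | ∃ L : List G, L.prod = x ∧ cost w L < 1} := by
    by_contra h
    exact hcA (hfin.mem_toFinset.2 ⟨p.EC c hcE, h⟩)
  obtain ⟨L, hL1, hL2⟩ := hcN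
  obtain ⟨h3, h4⟩ := cost_filter_one hw1 L
  have hcommon : ∀ M : List G, ∃ q ∈ Γ, q ≤ p ∧ ∀ a ∈ M, a ∈ q.D := by
    intro M
    induction M with
    | nil => exact ⟨p, hp, le_rfl, by simp⟩
    | cons a M ih =>
      obtain ⟨q, hq, hqp, hqM⟩ := ih
      obtain ⟨r, hr, hr1, hr2⟩ := hΓdir q hq (pa a) (hpa a)
      refine ⟨r, hr, hr1.trans hqp, fun b hb => ?_⟩
      rcases List.mem_cons.1 hb with rfl | hb
      · exact hr2.1 (hpa' _)
      · exact hr1.1 (hqM b hb)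
  obtain ⟨q, hq, hqp, hqM⟩ := hcommon (L.filter (· ≠ 1))
  have h5 : 1 ≤ cost q.W (L.filter (· ≠ 1)) := by
    refine q.valid _ ?_
    rw [h4, hL1]
    exact hqp.2.2.1 hcE
  have h6 : cost q.W (L.filter (· ≠ 1)) ≤ cost w (L.filter (· ≠ 1)) := by
    refine cost_le_cost _ fun a ha => ?_
    have ha1 : a ≠ 1 := by simpa using (List.mem_filter.1 ha).2
    rw [hwa q hq a (hqM a ha) ha1]
    unfold Cond.W wt
    rw [if_pos (hqM a ha)]
  rw [h3] at h6
  linarith

end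

end Pool.Agent.TH572.FU
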