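import Mathlib

/-!
# Iterated derived sets of products of convergent sequences
-/

set_option autoImplicit false

namespace Pool.Agent.TH572.FU

open Filter Topology Set Pointwise

section

variable {G : Type} [Group G] [TopologicalSpace G] [IsTopologicalGroup G] [T2Space G]

theorem mem_derivedSet_iff_ultra {A : Set G} {x : G} :
    x ∈ derivedSet A ↔ ∃ U : Ultrafilter G, (U : Filter G) ≤ 𝓝 x ∧ A ∈ U ∧ {x}ᶜ ∈ U := by
  rw [mem_derivedSet, AccPt, nhdsWithin]
  constructor
  · intro h
    obtain ⟨U, hU⟩ := @Ultrafilter.exists_le _ _ h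
    refine ⟨U, hU.trans (inf_le_left.trans inf_le_left), ?_, ?_⟩
    · exact le_principal_iff.1 (hU.trans inf_le_right)
    · exact le_principal_iff.1 (hU.trans (inf_le_left.trans inf_le_right))
  · rintro ⟨U, h1, h2, h3⟩
    exact neBot_of_le (le_inf (le_inf h1 (le_principal_iff.2 h3)) (le_principal_iff.2 h2))

theorem derivedSet_mul_subset {A B : Set G} (hA : IsCompact A) (hB : IsCompact B) :
    derivedSet (A * B) ⊆ derivedSet A * B ∪ A * derivedSet B := by
  classical
  intro x hx
  obtain ⟨U, h1, h2, h3⟩ := mem_derivedSet_iff_ultra.1 hx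
  have hex : ∀ y : G, ∃ p : G × G, y ∈ A * B → p.1 ∈ A ∧ p.2 ∈ B ∧ p.1 * p.2 = y := by
    intro y
    by_cases hy : y ∈ A * B
    · obtain ⟨a, ha, b, hb, hab⟩ := hy
      exact ⟨(a, b), fun _ => ⟨ha, hb, hab⟩⟩
    · exact ⟨(1, 1), fun h => absurd h hy⟩
  choose p hp using hex
  obtain ⟨a, haA, ha⟩ := hA.ultrafilter_le_nhds (U.map fun y => (p y).1)
    (le_principal_iff.2 (by
      rw [Ultrafilter.coe_map, mem_map]
      filter_upwards [h2] with y hy using (hp y hy).1))
  obtain ⟨b, hbB, hb⟩ := hB.ultrafilter_le_nhds (U.map fun y => (p y).2)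
    (le_principal_iff.2 (by
      rw [Ultrafilter.coe_map, mem_map]
      filter_upwards [h2] with y hy using (hp y hy).2.1))
  have ha' : Tendsto (fun y => (p y).1) U (𝓝 a) := ha
  have hb' : Tendsto (fun y => (p y).2) U (𝓝 b) := hb
  have hab : a * b = x := by
    have h4 : Tendsto (fun y => (p y).1 * (p y).2) U (𝓝 (a * b)) := ha'.mul hb'
    have h5 : Tendsto (fun y : G => y) U (𝓝 (a * b)) := by
      refine h4.congr' ?_
      filter_upwards [h2] with y hy using (hp y hy).2.2
    exact tendsto_nhds_unique h5 h1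
  by_cases hc : {y | (p y).1 = a} ∈ U
  · right
    refine ⟨a, haA, b, ?_, hab⟩
    refine mem_derivedSet_iff_ultra.2 ⟨U.map fun y => (p y).2, hb, ?_, ?_⟩
    · rw [Ultrafilter.mem_map]
      filter_upwards [h2] with y hy using (hp y hy).2.1
    · rw [Ultrafilter.mem_map]
      filter_upwards [h2, h3, hc] with y hy hy' hya hyb
      apply hy'
      have hyb' : (p y).2 = b := hyb
      rw [mem_singleton_iff, ← (hp y hy).2.2, hyb', show (p y).1 = a from hya, hab]
  · left
    refine ⟨a, ?_, b, hbB, hab⟩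
    refine mem_derivedSet_iff_ultra.2 ⟨U.map fun y => (p y).1, ha, ?_, ?_⟩
    · rw [Ultrafilter.mem_map]
      filter_upwards [h2] with y hy using (hp y hy).1
    · rw [Ultrafilter.mem_map]
      exact Ultrafilter.compl_mem_iff_notMem.2 hc

theorem isCompact_pow {B : Set G} (hB : IsCompact B) : ∀ m : ℕ, IsCompact (B ^ m)
  | 0 => by rw [pow_zero]; exact isCompact_singleton
  | m + 1 => by rw [pow_succ]; exact (isCompact_pow hB m).mul hB

/-- if `1` is the only accumulation point of the compact set `B ∋ 1` then the derived set of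
`B ^ (m + 1)` is contained in `B ^ m` -/
theorem derivedSet_pow_subset {B : Set G} (hB : IsCompact B) (h1 : (1 : G) ∈ B)
    (hd : derivedSet B ⊆ {1}) : ∀ m : ℕ, derivedSet (B ^ (m + 1)) ⊆ B ^ m := by
  intro m
  induction m with
  | zero =>
    rw [zero_add, pow_one, pow_zero]
    exact hd
  | succ m ih =>
    rw [pow_succ]
    refine (derivedSet_mul_subset (isCompact_pow hB (m + 1)) hB).trans (union_subset ?_ ?_)
    · refine (mul_subset_mul_right ih).trans ?_
      rw [← pow_succ]
    · refine (mul_subset_mul_left hd).trans ?_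
      rintro _ ⟨x, hx, y, hy, rfl⟩
      rw [mem_singleton_iff] at hy
      simpa [hy] using hx

theorem iterate_mono (n : ℕ) {A B : Set G} (h : A ⊆ B) :
    derivedSet^[n] A ⊆ derivedSet^[n] B := by
  induction n generalizing A B with
  | zero => exact h
  | succ n ih =>
    rw [Function.iterate_succ_apply, Function.iterate_succ_apply]
    exact ih (derivedSet_mono _ _ h)

theorem iterate_pow_eq_empty {B : Set G} (hB : IsCompact B) (h1 : (1 : G) ∈ B)
    (hd : derivedSet B ⊆ {1}) : ∀ m : ℕ, derivedSet^[m + 1] (B ^ m) = ∅ := by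
  intro m
  induction m with
  | zero =>
    rw [zero_add, Function.iterate_one, pow_zero]
    apply eq_empty_of_forall_notMem
    intro x hx
    obtain ⟨U, h2, h3, h4⟩ := mem_derivedSet_iff_ultra.1 hx
    have h5 : ({1} : Set G) ∈ U := h3
    have h6 : x = 1 := by
      have h7 : Tendsto (fun y : G => y) U (𝓝 1) := by
        refine tendsto_nhds_of_eventually_eq ?_
        filter_upwards [h5] with y hy using hy
      exact tendsto_nhds_unique h2 h7
    rw [h6] at h4
    exact (Ultrafilter.compl_mem_iff_notMem.1 h4) h5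
  | succ m ih =>
    rw [Function.iterate_succ_apply]
    exact subset_empty_iff.1 ((iterate_mono _ (derivedSet_pow_subset hB h1 hd m)).trans ih.subset)

theorem derivedSet_smul (g : G) (A : Set G) : g • derivedSet A ⊆ derivedSet (g • A) := by
  rintro _ ⟨x, hx, rfl⟩
  obtain ⟨U, h1, h2, h3⟩ := mem_derivedSet_iff_ultra.1 hx
  refine mem_derivedSet_iff_ultra.2 ⟨U.map fun y => g * y, ?_, ?_, ?_⟩
  · have h4 : Tendsto (fun y : G => g * y) U (𝓝 (g * x)) :=
      ((continuous_const_mul g).tendsto x).mono_left h1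
    exact h4
  · rw [Ultrafilter.mem_map]
    filter_upwards [h2] with y hy using ⟨y, hy, rfl⟩
  · rw [Ultrafilter.mem_map]
    filter_upwards [h3] with y hy hyx
    exact hy (mul_left_cancel hyx)

theorem iterate_smul (g : G) (n : ℕ) (A : Set G) :
    g • derivedSet^[n] A ⊆ derivedSet^[n] (g • A) := by
  induction n generalizing A with
  | zero => rfl
  | succ n ih =>
    rw [Function.iterate_succ_apply, Function.iterate_succ_apply]
    exact (ih _).trans (iterate_mono _ (derivedSet_smul g A))

theorem iterate_smul_eq_empty (g : G) (n : ℕ) {A : Set G} (h : derivedSet^[n] A = ∅) :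
    derivedSet^[n] (g • A) = ∅ := by
  have h1 := iterate_smul g⁻¹ n (g • A)
  rw [inv_smul_smul, h] at h1
  have h2 := smul_set_subset_iff_subset_inv_smul_set.1 h1
  simpa using h2

/-- the `n`-th derived set of the set of the products of `n` terms -/
theorem one_mem_iterate {x : ℕ → G} (hx : Tendsto x atTop (𝓝 1)) (hne : ∀ k, x k ≠ 1)
    {X : Set G} (hX : ∀ k, x k ∈ X) :
    ∀ n : ℕ, ∀ V ∈ 𝓝 (1 : G), (1 : G) ∈ derivedSet^[n] (X ^ n ∩ V) := by
  intro n
  induction n with
  | zero =>
    intro V hV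
    rw [pow_zero]
    exact ⟨rfl, mem_of_mem_nhds hV⟩
  | succ n ih =>
    intro V hV
    rw [Function.iterate_succ_apply']
    have h1 : ∀ᶠ k in atTop, x k ∈ derivedSet^[n] (X ^ (n + 1) ∩ V) := by
      filter_upwards [hx.eventually (eventually_mem_nhds_iff.2 hV)] with k hk
      have h2 : (fun y : G => x k * y) ⁻¹' V ∈ 𝓝 (1 : G) := by
        have h3 : Tendsto (fun y : G => x k * y) (𝓝 1) (𝓝 (x k)) := by
          have := (continuous_const_mul (x k)).tendsto 1
          rwa [mul_one] at this
        exact h3 hk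
      have h3 := iterate_smul (x k) n (X ^ n ∩ (fun y : G => x k * y) ⁻¹' V)
      have h4 : x k ∈ x k • derivedSet^[n] (X ^ n ∩ (fun y : G => x k * y) ⁻¹' V) :=
        ⟨1, ih _ h2, by simp⟩
      refine iterate_mono n ?_ (h3 h4)
      rintro _ ⟨y, ⟨hy1, hy2⟩, rfl⟩
      refine ⟨?_, hy2⟩
      rw [pow_succ']
      exact ⟨x k, hX k, y, hy1, rfl⟩
    refine mem_derivedSet_iff_ultra.2 ⟨(Ultrafilter.of atTop).map x, ?_, ?_, ?_⟩
    · exact hx.mono_left (Ultrafilter.of_le atTop)
    · rw [Ultrafilter.mem_map]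
      exact Ultrafilter.of_le atTop h1
    · rw [Ultrafilter.mem_map]
      exact univ_mem' fun k => hne k

end

end Pool.Agent.TH572.FU
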