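import Mathlib
import Pool.Agent.TH572.FU.Capture
import Pool.Agent.TH572.FU.Rank

/-!
# A generic double sequence
-/

set_option autoImplicit false

namespace Pool.Agent.TH572.FU

open Filter Topology Set Pointwise Cardinal

section

variable {G : Type} [Group G]

theorem ultra_principal {X : Type} {U : Ultrafilter X} {s : Set X} (hs : s.Finite) (h : s ∈ U) :
    ∃ b ∈ s, {b} ∈ U := by
  have h1 : ∀ᶠ x in (U : Filter X), ∃ b ∈ s, x = b := by
    filter_upwards [h] with x hx using ⟨x, hx, rfl⟩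
  obtain ⟨b, hb, hb'⟩ := (Ultrafilter.eventually_exists_mem_iff hs).1 h1
  exact ⟨b, hb, hb'⟩

theorem isCompact_of_finite_outside [TopologicalSpace G] {B : Set G}
    (h1 : (1 : G) ∈ B) (hB : ∀ O ∈ 𝓝 (1 : G), (B \ O).Finite) : IsCompact B := by
  rw [isCompact_iff_ultrafilter_le_nhds]
  intro U hU
  by_cases h : (U : Filter G) ≤ 𝓝 1
  · exact ⟨1, h1, h⟩
  · obtain ⟨O, hO, hO'⟩ := Filter.not_le.1 h
    have h2 : B \ O ∈ U := by
      have h3 : Oᶜ ∈ U := Ultrafilter.compl_mem_iff_notMem.2 hO'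
      exact inter_mem (le_principal_iff.1 hU) h3
    obtain ⟨b, hb, hb'⟩ := ultra_principal (hB O hO) h2
    refine ⟨b, hb.1, ?_⟩
    intro s hs
    exact mem_of_superset hb' (singleton_subset_iff.2 (mem_of_mem_nhds hs))

theorem derivedSet_of_finite_outside [TopologicalSpace G] [IsTopologicalGroup G] [T2Space G]
    {B : Set G} (hB : ∀ O ∈ 𝓝 (1 : G), (B \ O).Finite) : derivedSet B ⊆ {1} := by
  intro y hy
  by_contra hne
  obtain ⟨U, h1, h2, h3⟩ := mem_derivedSet_iff_ultra.1 hy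
  obtain ⟨O', O, hO', hO, hyO', h1O, hdisj⟩ := t2_separation (show y ≠ 1 from hne)
  have h4 : (B \ O) \ {y} ∈ U := by
    filter_upwards [h1 (hO'.mem_nhds hyO'), h2, h3] with z hz hz' hz''
    exact ⟨⟨hz', fun h => disjoint_left.1 hdisj hz h⟩, hz''⟩
  obtain ⟨b, hb, hb'⟩ := ultra_principal ((hB O (hO.mem_nhds h1O)).subset sdiff_subset) h4
  have h5 : (U : Filter G) ≤ 𝓝 b := by
    intro s hs
    exact mem_of_superset hb' (singleton_subset_iff.2 (mem_of_mem_nhds hs))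
  have h6 : y = b := by
    have h7 : Tendsto (fun z : G => z) U (𝓝 y) := h1
    exact tendsto_nhds_unique h7 h5
  exact hb.2 h6.symm

theorem base_finite_outside [TopologicalSpace G] (F : Finset G) (T : Finset (ℕ → G))
    (hT : ∀ u ∈ T, Tendsto u atTop (𝓝 1)) {O : Set G} (hO : O ∈ 𝓝 (1 : G)) :
    (base F T \ O).Finite := by
  have h1 : (⋃ u ∈ (T : Set (ℕ → G)), {a | ∃ i, u i = a ∧ a ∉ O}).Finite :=
    T.finite_toSet.biUnion fun u hu => finite_outside (hT u hu) hO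
  refine ((F.finite_toSet).union h1).subset ?_
  rintro a ⟨ha | ha | ha, haO⟩
  · exact absurd (mem_of_mem_nhds hO) (ha ▸ haO)
  · exact Or.inl ha
  · obtain ⟨u, hu, i, hi⟩ := mem_iUnion₂.1 ha
    exact Or.inr (mem_biUnion (show u ∈ (T : Set (ℕ → G)) from hu) ⟨i, hi, haO⟩)

/-- the index set of the promises -/
abbrev Idx (J : Set (ℕ → G)) : Type := Finset G × Finset J × ℕ

/-- the set attached to an index -/
def Idx.set {J : Set (ℕ → G)} (α : Idx J) : Set G :=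
  open Classical in base α.1 (α.2.1.image Subtype.val) ^ α.2.2

/-- there are elements of the `n`-th power of a convergent sequence near `1` outside every set
with a smaller index -/
theorem exists_outside [τ : TopologicalSpace G] [IsTopologicalGroup G] [T2Space G]
    {J : Set (ℕ → G)} (hJ : ∀ u ∈ J, Tendsto u atTop (𝓝 1))
    {x : ℕ → G} (hx : Tendsto x atTop (𝓝 1)) (hne : ∀ k, x k ≠ 1) (A : Finset (Idx J)) (n : ℕ)
    (g : G) {O : Set G} (hO : O ∈ 𝓝 (1 : G)) :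
    ∃ a ∈ (insert 1 (range x)) ^ n ∩ O, ∀ α ∈ A, α.2.2 < n → g * a ∉ Idx.set α := by
  classical
  cases n with
  | zero =>
    exact ⟨1, ⟨by rw [pow_zero]; rfl, mem_of_mem_nhds hO⟩, fun α _ h => absurd h (Nat.not_lt_zero _)⟩
  | succ n =>
    by_contra hcon
    push Not at hcon
    let F : Finset G := A.biUnion fun α => α.1
    let T : Finset (ℕ → G) := A.biUnion fun α => α.2.1.image Subtype.val
    have hT : ∀ u ∈ T, Tendsto u atTop (𝓝 1) := by
      intro u hu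
      obtain ⟨α, -, hα⟩ := Finset.mem_biUnion.1 hu
      obtain ⟨v, -, rfl⟩ := Finset.mem_image.1 hα
      exact hJ v.1 v.2
    have hout : ∀ O ∈ 𝓝 (1 : G), (base F T \ O).Finite := fun O hO => base_finite_outside F T hT hO
    have h1 := iterate_pow_eq_empty (isCompact_of_finite_outside (one_mem_base F T) hout)
      (one_mem_base F T) (derivedSet_of_finite_outside hout) n
    have h2 := iterate_smul_eq_empty g⁻¹ (n + 1) h1
    have h3 : (insert 1 (range x)) ^ (n + 1) ∩ O ⊆ g⁻¹ • (base F T) ^ n := by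
      intro a ha
      obtain ⟨α, hα, hα', hmem⟩ := hcon a ha
      refine ⟨g * a, ?_, by simp⟩
      have h4 : Idx.set α ⊆ base F T ^ n := by
        unfold Idx.set
        refine pow_subset_pow (base_mono ?_ ?_) (one_mem_base F T) (by omega)
        · exact Finset.subset_biUnion_of_mem (fun α : Idx J => α.1) hα
        · exact Finset.subset_biUnion_of_mem
            (fun α : Idx J => α.2.1.image (Subtype.val : J → ℕ → G)) hα
      exact h4 hmem
    have h4 := one_mem_iterate hx hne (X := insert 1 (range x))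
      (fun k => Or.inr ⟨k, rfl⟩) (n + 1) O hO
    have h5 := iterate_mono (n + 1) h3 h4
    rw [h2] at h5
    exact h5

/-- the conditions for the double sequence -/
structure Arr (J : Set (ℕ → G)) (V : ℕ → Set G) (x : ℕ → G) where
  /-- finitely many elements, with the numbers of their rows -/
  z : Finset (ℕ × G)
  /-- the index of the neighbourhood which contains the new elements -/
  l : ℕ
  /-- the sets to be avoided -/
  A : Finset (Idx J)
  hz : ∀ b ∈ z, b.2 ∈ (insert 1 (range x)) ^ b.1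

variable {J : Set (ℕ → G)} {V : ℕ → Set G} {x : ℕ → G}

/-- the requirement for new elements -/
def Arr.New (p : Arr J V x) (b : ℕ × G) : Prop :=
  b.2 ∈ V p.l ∧ ∀ α ∈ p.A, α.2.2 < b.1 → x b.1 * b.2 ∉ Idx.set α

theorem arrLeTrans (hVa : Antitone V) {p q r : Arr J V x}
    (h1 : q.z ⊆ r.z ∧ q.l ≤ r.l ∧ q.A ⊆ r.A ∧ ∀ b ∈ r.z, b ∉ q.z → q.New b)
    (h2 : p.z ⊆ q.z ∧ p.l ≤ q.l ∧ p.A ⊆ q.A ∧ ∀ b ∈ q.z, b ∉ p.z → p.New b) :
    p.z ⊆ r.z ∧ p.l ≤ r.l ∧ p.A ⊆ r.A ∧ ∀ b ∈ r.z, b ∉ p.z → p.New b := by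
  refine ⟨h2.1.trans h1.1, h2.2.1.trans h1.2.1, h2.2.2.1.trans h1.2.2.1, ?_⟩
  intro b hb hb'
  by_cases h : b ∈ q.z
  · exact h2.2.2.2 b h hb'
  · obtain ⟨h3, h4⟩ := h1.2.2.2 b hb h
    exact ⟨hVa h2.2.1 h3, fun α hα hα' => h4 α (h2.2.2.1 hα) hα'⟩

/-- the preorder of the conditions -/
abbrev arrPre (hVa : Antitone V) : Preorder (Arr J V x) where
  le q p := p.z ⊆ q.z ∧ p.l ≤ q.l ∧ p.A ⊆ q.A ∧ ∀ b ∈ q.z, b ∉ p.z → p.New b
  le_refl p := ⟨subset_rfl, le_rfl, subset_rfl, fun b hb hb' => absurd hb hb'⟩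
  le_trans _ _ _ h1 h2 := arrLeTrans hVa h1 h2

theorem arrSigmaCentered [Countable G] (hVa : Antitone V) :
    @SigmaCentered (Arr J V x) (arrPre hVa) := by
  classical
  obtain ⟨e, he⟩ := exists_injective_nat (Finset (ℕ × G) × ℕ)
  refine ⟨fun p => e (p.z, p.l), fun F hF hc => ?_⟩
  obtain ⟨p0, hp0⟩ := hF
  have hc' : ∀ p ∈ F, p.z = p0.z ∧ p.l = p0.l := by
    intro p hp
    have h1 := he (hc p hp p0 hp0)
    simpa using h1
  refine ⟨⟨p0.z, p0.l, F.biUnion fun p => p.A, p0.hz⟩, fun p hp => ?_⟩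
  obtain ⟨h1, h2⟩ := hc' p hp
  refine ⟨h1.subset, h2.le, Finset.subset_biUnion_of_mem (fun p => p.A) hp, fun b hb hb' => ?_⟩
  rw [h1] at hb'
  exact absurd hb hb'

theorem mk_idx_le {κ : Cardinal.{0}} (hκ : ℵ₀ ≤ κ) (hJκ : #J ≤ κ) [Countable G] :
    #(Idx J) ≤ κ := by
  have h1 : #(Finset G) ≤ κ := (mk_le_aleph0 (α := Finset G)).trans hκ
  have h2 : #(Finset J) ≤ κ := by
    rcases finite_or_infinite J with hf | hi
    · have : Countable (Finset J) := inferInstance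
      exact (mk_le_aleph0 (α := Finset J)).trans hκ
    · rw [mk_finset_of_infinite]
      exact hJκ
  have h3 : #ℕ ≤ κ := (mk_le_aleph0 (α := ℕ)).trans hκ
  rw [mk_prod, mk_prod]
  simp only [lift_id]
  exact (mul_le_mul' h1 (mul_le_mul' h2 h3)).trans (by
    rw [Cardinal.mul_eq_self hκ, Cardinal.mul_eq_self hκ])

/-- the generic double sequence -/
theorem exists_array [Countable G] [τ : TopologicalSpace G] [IsTopologicalGroup G] [T2Space G]
    (hJ : ∀ u ∈ J, Tendsto u atTop (𝓝 1)) {κ : Cardinal.{0}} (hκ : ℵ₀ ≤ κ) (hJκ : #J ≤ κ)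
    (hMA : MACentered κ) (hVa : Antitone V) (hV : ∀ l, V l ∈ 𝓝 (1 : G))
    (hx : Tendsto x atTop (𝓝 1)) (hne : ∀ k, x k ≠ 1) :
    ∃ Z : Set (ℕ × G), (∀ b ∈ Z, b.2 ∈ (insert 1 (range x)) ^ b.1) ∧
      (∀ n l, ∃ a ∈ V l, (n, a) ∈ Z) ∧ (∀ l, {b | b ∈ Z ∧ b.2 ∉ V l}.Finite) ∧
      ∀ α : Idx J, {b | b ∈ Z ∧ α.2.2 < b.1 ∧ x b.1 * b.2 ∈ Idx.set α}.Finite := by
  classical
  let _ := arrPre (G := G) (J := J) (x := x) hVa
  have : Nonempty (Arr J V x) := ⟨⟨∅, 0, ∅, by simp⟩⟩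
  have hd1 : ∀ (α : Idx J) (p : Arr J V x), ∃ q ∈ {p : Arr J V x | α ∈ p.A}, q ≤ p := by
    intro α p
    exact ⟨⟨p.z, p.l, insert α p.A, p.hz⟩, Finset.mem_insert_self _ _, subset_rfl, le_rfl,
      Finset.subset_insert _ _, fun b hb hb' => absurd hb hb'⟩
  have hd2 : ∀ (l : ℕ) (p : Arr J V x), ∃ q ∈ {p : Arr J V x | l ≤ p.l}, q ≤ p := by
    intro l p
    refine ⟨⟨p.z, max l p.l, p.A, p.hz⟩, ?_, subset_rfl, le_max_right _ _,
      subset_rfl, fun b hb hb' => absurd hb hb'⟩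
    change l ≤ max l p.l
    exact le_max_left _ _
  have hd3 : ∀ (i : ℕ × ℕ) (p : Arr J V x),
      ∃ q ∈ {p : Arr J V x | ∃ a ∈ V i.2, (i.1, a) ∈ p.z}, q ≤ p := by
    rintro ⟨n, l⟩ p
    obtain ⟨a, ⟨ha1, ha2⟩, ha3⟩ := exists_outside hJ hx hne p.A n (x n)
      (inter_mem (hV l) (hV p.l))
    refine ⟨⟨insert (n, a) p.z, p.l, p.A, ?_⟩, ⟨a, ha2.1, Finset.mem_insert_self _ _⟩,
      Finset.subset_insert _ _, le_rfl, subset_rfl, ?_⟩
    · intro b hb
      rcases Finset.mem_insert.1 hb with rfl | hb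
      · exact ha1
      · exact p.hz b hb
    · intro b hb hb'
      rcases Finset.mem_insert.1 hb with rfl | hb
      · exact ⟨ha2.2, ha3⟩
      · exact absurd hb hb'
  let 𝒟 : Set (Set (Arr J V x)) :=
    range (fun α : Idx J => {p : Arr J V x | α ∈ p.A}) ∪
      (range (fun l : ℕ => {p : Arr J V x | l ≤ p.l}) ∪
      range (fun i : ℕ × ℕ => {p : Arr J V x | ∃ a ∈ V i.2, (i.1, a) ∈ p.z}))
  have hcard : #𝒟 ≤ κ := by
    have hc : ∀ (I : Type) [Countable I] (f : I → Set (Arr J V x)), #(range f) ≤ κ := by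
      intro I _ f
      exact mk_range_le.trans ((mk_le_aleph0 (α := I)).trans hκ)
    have h1 : #(range (fun α : Idx J => {p : Arr J V x | α ∈ p.A})) ≤ κ :=
      mk_range_le.trans (mk_idx_le hκ hJκ)
    have h2 := hc ℕ fun l : ℕ => {p : Arr J V x | l ≤ p.l}
    have h3 := hc (ℕ × ℕ) fun i : ℕ × ℕ => {p : Arr J V x | ∃ a ∈ V i.2, (i.1, a) ∈ p.z}
    have hadd : κ + κ ≤ κ := (Cardinal.add_eq_self hκ).le
    exact ((mk_union_le _ _).trans (add_le_add h1 ((mk_union_le _ _).trans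
      ((add_le_add h2 h3).trans hadd)))).trans hadd
  obtain ⟨Γ, hΓne, hΓup, hΓdir, hΓd⟩ := hMA (Arr J V x) (arrSigmaCentered hVa) 𝒟 hcard (by
    rintro d (⟨α, rfl⟩ | (⟨l, rfl⟩ | ⟨i, rfl⟩))
    · exact hd1 α
    · exact hd2 l
    · exact hd3 i)
  have hkey : ∀ p ∈ Γ, ∀ b, (∃ q ∈ Γ, b ∈ q.z) → b ∉ p.z → p.New b := by
    rintro p hp b ⟨q, hq, hb⟩ hb'
    obtain ⟨r, hr, hr1, hr2⟩ := hΓdir p hp q hq
    exact hr1.2.2.2 b (hr2.1 hb) hb'
  refine ⟨{b | ∃ q ∈ Γ, b ∈ q.z}, ?_, ?_, ?_, ?_⟩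
  · rintro b ⟨q, hq, hb⟩
    exact q.hz b hb
  · intro n l
    obtain ⟨p, hp, a, ha, hb⟩ := hΓd _ (Or.inr (Or.inr ⟨(n, l), rfl⟩))
    exact ⟨a, ha, p, hp, hb⟩
  · intro l
    obtain ⟨p, hp, hp'⟩ := hΓd _ (Or.inr (Or.inl ⟨l, rfl⟩))
    refine p.z.finite_toSet.subset ?_
    rintro b ⟨hb, hb'⟩
    by_contra h
    exact hb' (hVa hp' (hkey p hp b hb h).1)
  · intro α
    obtain ⟨p, hp, hp'⟩ := hΓd _ (Or.inl ⟨α, rfl⟩)
    refine p.z.finite_toSet.subset ?_
    rintro b ⟨hb, hb', hb''⟩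
    by_contra h
    exact (hkey p hp b hb h).2 α hp' hb' hb''

end

end Pool.Agent.TH572.FU
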