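import Mathlib
import Pool.Agent.TH572.FU.Array

/-!
# The topology generated by few sequences in a countable group is not Fréchet-Urysohn
-/

set_option autoImplicit false

namespace Pool.Agent.TH572.FU

open Filter Topology Set Pointwise Cardinal

section

variable {G : Type} [Group G]

/-- the closure of a set of sequences under conjugation and inversion -/
def clos (S : Set (ℕ → G)) : Set (ℕ → G) :=
  range (fun i : G × S × Bool => fun n => i.1 * (if i.2.2 then i.2.1.1 n else (i.2.1.1 n)⁻¹) * i.1⁻¹)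

theorem subset_clos (S : Set (ℕ → G)) : S ⊆ clos S := by
  intro u hu
  refine ⟨(1, ⟨u, hu⟩, true), ?_⟩
  funext n
  simp

theorem closed_clos (S : Set (ℕ → G)) : Closed (clos S) := by
  constructor
  · rintro _ ⟨⟨h, u, b⟩, rfl⟩ g
    refine ⟨(g * h, u, b), ?_⟩
    funext n
    simp only [mul_inv_rev]
    group
  · rintro _ ⟨⟨h, u, b⟩, rfl⟩
    refine ⟨(h, u, !b), ?_⟩
    funext n
    cases b <;> simp [mul_assoc]

theorem mk_clos_le [Countable G] {S : Set (ℕ → G)} {κ : Cardinal.{0}} (hκ : ℵ₀ ≤ κ)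
    (hS : #S ≤ κ) : #(clos S) ≤ κ := by
  refine mk_range_le.trans ?_
  rw [mk_prod, mk_prod]
  simp only [lift_id]
  have h1 : #G ≤ κ := (mk_le_aleph0 (α := G)).trans hκ
  have h2 : #Bool ≤ κ := (mk_le_aleph0 (α := Bool)).trans hκ
  exact (mul_le_mul' h1 (mul_le_mul' hS h2)).trans (by
    rw [Cardinal.mul_eq_self hκ, Cardinal.mul_eq_self hκ])

theorem tendsto_clos [τ : TopologicalSpace G] [IsTopologicalGroup G] {S : Set (ℕ → G)}
    (hS : ∀ u ∈ S, Tendsto u atTop (𝓝 1)) : ∀ u ∈ clos S, Tendsto u atTop (𝓝 1) := by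
  rintro _ ⟨⟨g, u, b⟩, rfl⟩
  have h1 : Tendsto (fun n => if b then u.1 n else (u.1 n)⁻¹) atTop (𝓝 1) := by
    cases b
    · simpa using (hS u.1 u.2).inv
    · simpa using hS u.1 u.2
  have h2 := (h1.const_mul g).mul_const g⁻¹
  simpa using h2

/-- a sequence of neighbourhoods with the properties that are used below -/
theorem exists_V [Countable G] [τ : TopologicalSpace G] [IsTopologicalGroup G] [T2Space G] :
    ∃ V : ℕ → Set G, Antitone V ∧ (∀ l, V l ∈ 𝓝 (1 : G)) ∧
      (∀ y : G, y ≠ 1 → ∃ m, ∃ O ∈ 𝓝 y, Disjoint O (V m)) ∧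
      ∀ y : G, y ≠ 1 → ∃ m, ∃ O ∈ 𝓝 (1 : G), ∀ a ∈ V m, y * a ∉ O := by
  obtain ⟨V, μ, hμg, hμ2, hle, hVa, hV⟩ := exists_coarse (G := G)
  refine ⟨V, hVa, fun l => nhds_mono hle (hV.mem_of_mem (i := l) trivial), ?_, ?_⟩
  · intro y hy
    obtain ⟨O, O', hO, hO', hyO, h1O', hdisj⟩ := @t2_separation G μ hμ2 _ _ hy
    obtain ⟨m, -, hm⟩ := hV.mem_iff.1 (hO'.mem_nhds h1O')
    exact ⟨m, O, nhds_mono hle (hO.mem_nhds hyO), hdisj.mono_right hm⟩
  · intro y hy
    obtain ⟨O, O', hO, hO', hyO, h1O', hdisj⟩ := @t2_separation G μ hμ2 _ _ hy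
    have h4 : Tendsto (fun z : G => y * z) (@nhds G μ 1) (@nhds G μ y) := by
      have := (@continuous_const_mul G μ _ inferInstance y).tendsto 1
      rwa [mul_one] at this
    have h5 := h4 (hO.mem_nhds hyO)
    obtain ⟨m, -, hm⟩ := hV.mem_iff.1 h5
    exact ⟨m, O', nhds_mono hle (hO'.mem_nhds h1O'), fun a ha h => disjoint_left.1 hdisj (hm ha) h⟩

/-- Let `G` be a countable group and `τ = τ_S` a non-discrete topology on `G` generated by at most
`κ` sequences, where Martin's axiom for `σ`-centred preordered sets and `κ` dense sets holds.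
Then `(G, τ)` is not a Fréchet-Urysohn space. -/
theorem not_frechet [Countable G] {S : Set (ℕ → G)} {τ : TopologicalSpace G} (hτ : IsTau S τ)
    (hnd : ¬ @DiscreteTopology G τ) {κ : Cardinal.{0}} (hκ : ℵ₀ ≤ κ) (hS : #S ≤ κ)
    (hMA : MACentered κ) : ¬ @FrechetUrysohnSpace G τ := by
  classical
  intro hFU
  have hτg := hτ.1.group
  have hτ2 := hτ.1.t2
  have hJt := tendsto_clos hτ.1.conv
  have hJκ := mk_clos_le hκ hS
  -- a nontrivial convergent sequence
  have h1 : (1 : G) ∈ closure ({1}ᶜ : Set G) := by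
    by_contra h
    apply hnd
    rw [discreteTopology_iff_isOpen_singleton_one]
    have h2 : ({1} : Set G) = (closure ({1}ᶜ : Set G))ᶜ := by
      ext y
      constructor
      · rintro rfl
        exact h
      · intro hy
        by_contra hne
        exact hy (subset_closure hne)
    rw [h2]
    exact isClosed_closure.isOpen_compl
  obtain ⟨x, hx1, hx⟩ := mem_closure_iff_seq_limit.1 h1
  have hne : ∀ k, x k ≠ 1 := fun k => hx1 k
  obtain ⟨V, hVa, hVτ, hVA, hVB⟩ := exists_V (G := G)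
  obtain ⟨Z, hZ1, hZ2, hZ3, hZ4⟩ := exists_array (J := clos S) hJt hκ hJκ hMA hVa hVτ hx hne
  -- the powers of the convergent sequence are compact
  have hX : ∀ n, IsCompact ((insert 1 (range x)) ^ n) := by
    intro n
    exact isCompact_pow (hx.isCompact_insert_range) n
  have hcompact : ∀ n : ℕ, ∀ O ∈ 𝓝 (1 : G), ∃ a ∈ O, (n, a) ∈ Z := by
    intro n O hO
    choose a ha haZ using hZ2 n
    obtain ⟨y, -, hy⟩ := (hX n).ultrafilter_le_nhds ((Ultrafilter.of atTop).map a)
      (le_principal_iff.2 (by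
        rw [Ultrafilter.coe_map, mem_map]
        exact univ_mem' fun l => hZ1 _ (haZ l)))
    have hy' : Tendsto a (Ultrafilter.of (atTop : Filter ℕ)) (𝓝 y) := hy
    have hy1 : y = 1 := by
      by_contra hy1
      obtain ⟨m, Q, hQ, hdisj⟩ := hVA y hy1
      obtain ⟨l, hl, hl'⟩ := ((hy'.eventually hQ).and
        ((Ultrafilter.of_le atTop) (eventually_ge_atTop m))).exists
      exact disjoint_left.1 hdisj hl (hVa hl' (ha l))
    subst hy1
    obtain ⟨l, hl⟩ := (hy'.eventually hO).exists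
    exact ⟨a l, hl, haZ l⟩
  let α₀ : Idx (clos S) := (∅, ∅, 0)
  have hα₀ : Idx.set α₀ = {1} := by
    change (_ : Set G) ^ 0 = _
    rw [pow_zero]
    rfl
  let P : Set G := {c | c ≠ 1 ∧ ∃ b ∈ Z, x b.1 * b.2 = c}
  have hP : (1 : G) ∈ closure P := by
    rw [mem_closure_iff_nhds]
    intro O hO
    have h2 := hx.eventually (eventually_mem_nhds_iff.2 hO)
    -- rows that do not produce the identity
    have h3 : ∀ᶠ n in atTop, ∀ b ∈ Z, b.1 = n → x b.1 * b.2 ≠ 1 := by
      have h4 := ((hZ4 α₀).image Prod.fst)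
      obtain ⟨N, hN⟩ := h4.bddAbove
      filter_upwards [eventually_gt_atTop (max N 0)] with n hn b hb hbn h5
      have h6 : b.1 ≤ N := hN ⟨b, ⟨hb, by
        change 0 < b.1
        omega, by rw [hα₀]; exact h5⟩, rfl⟩
      omega
    obtain ⟨n, hn1, hn2⟩ := (h2.and h3).exists
    have h4 : (fun y : G => x n * y) ⁻¹' O ∈ 𝓝 (1 : G) := by
      have h5 : Tendsto (fun y : G => x n * y) (𝓝 1) (𝓝 (x n)) := by
        have := (continuous_const_mul (x n)).tendsto 1
        rwa [mul_one] at this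
      exact h5 hn1
    obtain ⟨a, ha, haZ⟩ := hcompact n _ h4
    exact ⟨x n * a, ha, hn2 _ haZ rfl, (n, a), haZ, rfl⟩
  obtain ⟨c, hcP, hc⟩ := mem_closure_iff_seq_limit.1 hP
  have hC : ∀ U ∈ 𝓝 (1 : G), (range c \ U).Finite := by
    intro U hU
    refine (finite_outside hc hU).subset ?_
    rintro _ ⟨⟨i, rfl⟩, hi⟩
    exact ⟨i, rfl, hi⟩
  have hCinf : (range c).Infinite := by
    intro hfin
    have h2 : (range c)ᶜ ∈ 𝓝 (1 : G) := by
      refine hfin.isClosed.isOpen_compl.mem_nhds ?_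
      rintro ⟨i, hi⟩
      exact (hcP i).1 hi
    obtain ⟨i, hi⟩ := (hc.eventually h2).exists
    exact hi ⟨i, rfl⟩
  obtain ⟨F, T, hTJ, m, hm⟩ := capture hτ (subset_clos S) (closed_clos S) hJt hκ hJκ hMA _ hC
  let T' : Finset (clos S) := T.attach.image fun u => ⟨u.1, hTJ u.1 u.2⟩
  have hT' : T'.image Subtype.val = T := by
    ext u
    simp only [T', Finset.mem_image, Finset.mem_attach, true_and]
    constructor
    · rintro ⟨_, ⟨v, rfl⟩, rfl⟩
      exact v.2
    · intro hu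
      exact ⟨_, ⟨⟨u, hu⟩, rfl⟩, rfl⟩
  let α : Idx (clos S) := (F, T', m)
  have hα : Idx.set α = base F T ^ m := by
    change base F (T'.image Subtype.val) ^ m = _
    rw [hT']
  -- a function choosing elements of the double sequence
  have hch : ∀ y : G, ∃ b : ℕ × G, y ∈ range c → b ∈ Z ∧ x b.1 * b.2 = y := by
    intro y
    by_cases hy : y ∈ range c
    · obtain ⟨i, rfl⟩ := hy
      obtain ⟨-, b, hb, hb'⟩ := hcP i
      exact ⟨b, fun _ => ⟨hb, hb'⟩⟩
    · exact ⟨(0, 1), fun h => absurd h hy⟩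
  choose β hβ using hch
  -- the elements in late rows are finitely many
  have hlate : {y | y ∈ range c ∧ m < (β y).1}.Finite := by
    have h2 : {y | y ∈ range c ∧ m < (β y).1} ⊆ (range c \ base F T ^ m) ∪
        (fun b : ℕ × G => x b.1 * b.2) '' {b | b ∈ Z ∧ α.2.2 < b.1 ∧ x b.1 * b.2 ∈ Idx.set α} := by
      rintro y ⟨hy, hy'⟩
      by_cases h : y ∈ base F T ^ m
      · right
        obtain ⟨h3, h4⟩ := hβ y hy
        exact ⟨β y, ⟨h3, hy', by rw [h4, hα]; exact h⟩, h4⟩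
      · left
        exact ⟨hy, h⟩
    exact (hm.union ((hZ4 α).image _)).subset h2
  have hearly : (range c \ {y | y ∈ range c ∧ m < (β y).1}).Infinite := hCinf.sdiff hlate
  have hrow : ∃ n, {y | y ∈ range c ∧ (β y).1 = n}.Infinite := by
    by_contra hcon
    push Not at hcon
    apply hearly
    have h2 : (⋃ n ∈ Iic m, {y | y ∈ range c ∧ (β y).1 = n}).Finite :=
      (finite_Iic m).biUnion fun n _ => hcon n
    refine h2.subset ?_
    rintro y ⟨hy, hy'⟩
    have h3 : (β y).1 ≤ m := by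
      by_contra h
      exact hy' ⟨hy, not_le.1 h⟩
    exact mem_biUnion (show (β y).1 ∈ Iic m from h3) ⟨hy, rfl⟩
  obtain ⟨n, hn⟩ := hrow
  obtain ⟨l, O', hO', hl⟩ := hVB (x n) (hne n)
  apply hn
  -- all but finitely many are outside `O'`
  have h2 : {y | (y ∈ range c ∧ (β y).1 = n) ∧ y ∈ O'}.Finite := by
    refine ((hZ3 l).image (fun b : ℕ × G => x b.1 * b.2)).subset ?_
    rintro y ⟨⟨hy, hyn⟩, hyO⟩
    obtain ⟨h3, h4⟩ := hβ y hy
    refine ⟨β y, ⟨h3, fun h => ?_⟩, h4⟩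
    rw [← h4, hyn] at hyO
    exact hl _ h hyO
  refine (h2.union (hC O' hO')).subset ?_
  rintro y ⟨hy, hyn⟩
  by_cases h : y ∈ O'
  · exact Or.inl ⟨⟨hy, hyn⟩, h⟩
  · exact Or.inr ⟨hy, h⟩

end

end Pool.Agent.TH572.FU
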