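import Mathlib
import Pool.Agent.TH572.FU.Main

/-!
# The sequence-rank of countable Fréchet-Urysohn groups
-/

set_option autoImplicit false

namespace Pool.Agent.TH572.FU

open Filter Topology Set Cardinal

/-- `(G, τ)` is an `s`-group: `τ = τ_S` for some set `S` of sequences. -/
def IsSGroup {G : Type} [Group G] (τ : TopologicalSpace G) : Prop :=
  ∃ S : Set (ℕ → G), IsTau S τ

/-- The sequence-rank `r_s(G, τ)`: the least cardinality of a set `S` of sequences with
`τ = τ_S`. -/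
noncomputable def rs {G : Type} [Group G] (τ : TopologicalSpace G) : Cardinal.{0} :=
  sInf {c | ∃ S : Set (ℕ → G), IsTau S τ ∧ #S = c}

theorem tendsto_translate {G : Type} [Group G] [TopologicalSpace G] [IsTopologicalGroup G]
    {u : ℕ → G} {p : G} : Tendsto u atTop (𝓝 p) ↔ Tendsto (fun n => p⁻¹ * u n) atTop (𝓝 1) := by
  constructor
  · intro h
    have h1 := h.const_mul p⁻¹
    rwa [inv_mul_cancel] at h1
  · intro h
    have h1 := h.const_mul p
    simpa using h1

/-- every sequential Hausdorff group is an `s`-group -/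
theorem isTau_of_sequential {G : Type} [Group G] {τ : TopologicalSpace G}
    (hg : @IsTopologicalGroup G τ _) (h2 : @T2Space G τ) (hs : @SequentialSpace G τ) :
    IsTau {u : ℕ → G | Tendsto u atTop (@nhds G τ 1)} τ := by
  refine ⟨⟨hg, h2, fun u hu => hu⟩, fun σ hσ => ?_⟩
  have hσg := hσ.group
  rw [← continuous_id_iff_le]
  have h3 : @SeqContinuous G G τ σ id := by
    intro u p hu
    have h4 : Tendsto (fun n => p⁻¹ * u n) atTop (@nhds G τ 1) :=
      (@tendsto_translate G _ τ hg u p).1 hu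
    have h5 : Tendsto (fun n => p⁻¹ * u n) atTop (@nhds G σ 1) := hσ.conv _ h4
    exact (@tendsto_translate G _ σ hσg u p).2 h5
  exact @SeqContinuous.continuous G G τ σ hs _ h3

theorem exists_rs {G : Type} [Group G] {τ : TopologicalSpace G} (h : IsSGroup τ) :
    ∃ S : Set (ℕ → G), IsTau S τ ∧ #S = rs τ := by
  obtain ⟨S, hS⟩ := h
  exact csInf_mem (s := {c | ∃ S : Set (ℕ → G), IsTau S τ ∧ #S = c}) ⟨_, S, hS, rfl⟩

theorem lt_rs {G : Type} [Group G] [Countable G] {τ : TopologicalSpace G} (h : IsSGroup τ)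
    (hFU : @FrechetUrysohnSpace G τ) (hnd : ¬ @DiscreteTopology G τ) {κ : Cardinal.{0}}
    (hκ : ℵ₀ ≤ κ) (hMA : MACentered κ) : κ < rs τ := by
  obtain ⟨S, hS, hc⟩ := exists_rs h
  rw [← hc]
  by_contra hle
  exact not_frechet hS hnd hκ (not_lt.1 hle) hMA hFU

theorem rs_le_continuum {G : Type} [Group G] [Countable G] {τ : TopologicalSpace G}
    (h : IsSGroup τ) : rs τ ≤ 𝔠 := by
  obtain ⟨S, hS, hc⟩ := exists_rs h
  rw [← hc]
  refine (mk_set_le S).trans ?_
  rw [← power_def, mk_nat]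
  refine (power_le_power_right (mk_le_aleph0 (α := G))).trans ?_
  rw [aleph0_power_aleph0]

theorem rs_discrete {G : Type} [Group G] {τ : TopologicalSpace G}
    (hd : @DiscreteTopology G τ) : rs τ ≤ 1 := by
  have h1 : IsTau {fun _ : ℕ => (1 : G)} τ := by
    refine ⟨⟨@topologicalGroup_of_discreteTopology G τ _ hd, @DiscreteTopology.toT2Space G τ hd, ?_⟩, ?_⟩
    · rintro u rfl
      exact tendsto_const_nhds
    · intro σ _
      rw [hd.eq_bot]
      exact bot_le
  refine csInf_le' ⟨_, h1, ?_⟩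
  exact mk_singleton _

/-- the case of countably many dense sets holds outright -/
theorem maCentered_aleph0 : MACentered ℵ₀ := by
  intro P _ hne _ 𝒟 h𝒟 hd
  obtain ⟨p0⟩ := hne
  have hc : (insert Set.univ 𝒟).Countable := (le_aleph0_iff_set_countable.1 h𝒟).insert _
  obtain ⟨D, hD⟩ := hc.exists_eq_range ⟨Set.univ, mem_insert _ _⟩
  have hd' : ∀ n p, ∃ q ∈ D n, q ≤ p := by
    intro n p
    have h1 : D n ∈ insert Set.univ 𝒟 := by
      rw [hD]
      exact mem_range_self n
    rcases h1 with h1 | h1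
    · exact ⟨p, by rw [h1]; trivial, le_rfl⟩
    · exact hd _ h1 p
  choose f hf1 hf2 using hd'
  let q : ℕ → P := fun n => Nat.rec p0 (fun k r => f k r) n
  have hq : ∀ n, q (n + 1) = f n (q n) := fun n => rfl
  have hanti : Antitone q := antitone_nat_of_succ_le fun n => by
    rw [hq]
    exact hf2 _ _
  refine ⟨{r | ∃ n, q n ≤ r}, ⟨p0, 0, le_rfl⟩, ?_, ?_, ?_⟩
  · rintro p ⟨n, hn⟩ r hr
    exact ⟨n, hn.trans hr⟩
  · rintro p ⟨n, hn⟩ r ⟨m, hm⟩
    exact ⟨q (max n m), ⟨_, le_rfl⟩, (hanti (le_max_left _ _)).trans hn,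
      (hanti (le_max_right _ _)).trans hm⟩
  · intro d hd
    have h1 : d ∈ range D := by
      rw [← hD]
      exact mem_insert_of_mem _ hd
    obtain ⟨n, rfl⟩ := h1
    exact ⟨q (n + 1), ⟨n + 1, le_rfl⟩, hf1 _ _⟩

theorem aleph0_lt_rs {G : Type} [Group G] [Countable G] {τ : TopologicalSpace G} (h : IsSGroup τ)
    (hFU : @FrechetUrysohnSpace G τ) (hnd : ¬ @DiscreteTopology G τ) : ℵ₀ < rs τ :=
  lt_rs h hFU hnd le_rfl maCentered_aleph0

end Pool.Agent.TH572.FU
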